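import Pool.Agent.L0h34.SD.Base

/-! # The list of the questions of a run -/

set_option autoImplicit false

namespace Pool.Agent.L0h34.SD

open Pool.Agent.L0h34.OM Pool.Agent.L0h34.RO Function

/-- `RunQ G s u σ t τ L`: a run, and `L` is the list of the strings given to the oracle. -/
inductive RunQ (G : Oracle) (s : ℕ) : Prog → Store → ℕ → Store → List (List Bool) → Prop
  | nop (σ : Store) : RunQ G s .nop σ 1 σ []
  | put (r : ℕ) (b : Bool) (σ : Store) : (σ r).length + 1 ≤ s →
      RunQ G s (.put r b) σ 1 (update σ r (σ r ++ [b])) []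
  | copy (r q : ℕ) (σ : Store) : (σ r).length ≤ s →
      RunQ G s (.copy r q) σ ((σ r).length + 1) (update σ q (σ r)) []
  | ask (r q : ℕ) (σ : Store) : (σ r).length ≤ s → 1 ≤ s →
      RunQ G s (.ask r q) σ ((σ r).length + 1) (update σ q [G (σ r)]) [σ r]
  | seq {u v : Prog} {σ τ ρ : Store} {t t' : ℕ} {L L' : List (List Bool)} :
      RunQ G s u σ t τ L → RunQ G s v τ t' ρ L' → RunQ G s (.seq u v) σ (t + t') ρ (L ++ L')
  | take_nil {r : ℕ} {u v w : Prog} {σ τ : Store} {t : ℕ} {L : List (List Bool)} : σ r = [] →
      RunQ G s u σ t τ L → RunQ G s (.take r u v w) σ (t + 1) τ L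
  | take_false {r : ℕ} {u v w : Prog} {σ τ : Store} {t : ℕ} {l : List Bool}
      {L : List (List Bool)} : σ r = false :: l → RunQ G s v (update σ r l) t τ L →
      RunQ G s (.take r u v w) σ (t + 1) τ L
  | take_true {r : ℕ} {u v w : Prog} {σ τ : Store} {t : ℕ} {l : List Bool}
      {L : List (List Bool)} : σ r = true :: l → RunQ G s w (update σ r l) t τ L →
      RunQ G s (.take r u v w) σ (t + 1) τ L
  | loop_nil {r : ℕ} {u : Prog} {σ : Store} : σ r = [] → RunQ G s (.loop r u) σ 1 σ []
  | loop_cons {r : ℕ} {u : Prog} {σ τ ρ : Store} {t t' : ℕ} {L L' : List (List Bool)} :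
      σ r ≠ [] → RunQ G s u σ t τ L → RunQ G s (.loop r u) τ t' ρ L' →
      RunQ G s (.loop r u) σ (t + t' + 1) ρ (L ++ L')

variable {G : Oracle} {s : ℕ}

theorem exists_runQ {u : Prog} {σ τ : Store} {t : ℕ} (h : Run G s u σ t τ) :
    ∃ L, RunQ G s u σ t τ L := by
  induction h with
  | nop σ => exact ⟨_, .nop σ⟩
  | put r b σ h => exact ⟨_, .put r b σ h⟩
  | copy r q σ h => exact ⟨_, .copy r q σ h⟩
  | ask r q σ h h' => exact ⟨_, .ask r q σ h h'⟩
  | seq _ _ ih1 ih2 => exact ⟨_, .seq ih1.choose_spec ih2.choose_spec⟩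
  | take_nil h0 _ ih => exact ⟨_, .take_nil h0 ih.choose_spec⟩
  | take_false h0 _ ih => exact ⟨_, .take_false h0 ih.choose_spec⟩
  | take_true h0 _ ih => exact ⟨_, .take_true h0 ih.choose_spec⟩
  | loop_nil h0 => exact ⟨_, .loop_nil h0⟩
  | loop_cons h0 _ _ ih1 ih2 => exact ⟨_, .loop_cons h0 ih1.choose_spec ih2.choose_spec⟩

theorem RunQ.run_of {u : Prog} {σ τ : Store} {t : ℕ} {L : List (List Bool)}
    (h : RunQ G s u σ t τ L) {G' : Oracle} (hG : ∀ q ∈ L, G' q = G q) : Run G' s u σ t τ := by
  induction h with
  | nop σ => exact .nop σ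
  | put r b σ h => exact .put r b σ h
  | copy r q σ h => exact .copy r q σ h
  | ask r q σ h h' => rw [← hG (σ r) (by simp)]; exact .ask r q σ h h'
  | seq _ _ ih1 ih2 =>
    exact .seq (ih1 fun q hq => hG q (by simp [hq])) (ih2 fun q hq => hG q (by simp [hq]))
  | take_nil h0 _ ih => exact .take_nil h0 (ih hG)
  | take_false h0 _ ih => exact .take_false h0 (ih hG)
  | take_true h0 _ ih => exact .take_true h0 (ih hG)
  | loop_nil h0 => exact .loop_nil h0
  | loop_cons h0 _ _ ih1 ih2 =>
    exact .loop_cons h0 (ih1 fun q hq => hG q (by simp [hq])) (ih2 fun q hq => hG q (by simp [hq]))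

theorem RunQ.length_le {u : Prog} {σ τ : Store} {t : ℕ} {L : List (List Bool)}
    (h : RunQ G s u σ t τ L) : L.length ≤ t := by
  induction h with
  | nop σ => simp
  | put r b σ h => simp
  | copy r q σ h => simp
  | ask r q σ h h' => simp
  | seq _ _ ih1 ih2 => rw [List.length_append]; omega
  | take_nil h0 _ ih => omega
  | take_false h0 _ ih => omega
  | take_true h0 _ ih => omega
  | loop_nil h0 => simp
  | loop_cons h0 _ _ ih1 ih2 => rw [List.length_append]; omega

/-- Two lists: the second one has the prefix of length `p + 1` of the first one, or they are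
equal. -/
def Pre (p : ℕ) (L L' : List (List Bool)) (τ τ' : Store) : Prop :=
  (p < L.length → L'.take (p + 1) = L.take (p + 1)) ∧ (L.length ≤ p → L' = L ∧ τ' = τ)

theorem take_length_le {p : ℕ} {L L' : List (List Bool)} (h : L'.take (p + 1) = L.take (p + 1))
    (hp : p < L.length) : p + 1 ≤ L'.length := by
  have := congrArg List.length h
  rw [List.length_take, List.length_take] at this
  omega

theorem Pre.append {p : ℕ} {L1 L1' L2 L2' : List (List Bool)} {τ τ' ρ ρ' : Store}
    (h1 : Pre p L1 L1' τ τ') (h2 : L1' = L1 → τ' = τ → L1.length ≤ p →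
      Pre (p - L1.length) L2 L2' ρ ρ') : Pre p (L1 ++ L2) (L1' ++ L2') ρ ρ' := by
  rcases Nat.lt_or_ge p L1.length with h | h
  · have h3 := h1.1 h
    have h4 := take_length_le h3 h
    refine ⟨fun _ => ?_, fun h5 => ?_⟩
    · rw [List.take_append_of_le_length h4, List.take_append_of_le_length (by omega), h3]
    · rw [List.length_append] at h5
      omega
  · obtain ⟨rfl, rfl⟩ := h1.2 h
    obtain ⟨h3, h4⟩ := h2 rfl rfl h
    refine ⟨fun h5 => ?_, fun h5 => ?_⟩
    · rw [List.length_append] at h5
      rw [List.take_append, List.take_append]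
      have e : p + 1 - L1'.length = p - L1'.length + 1 := by omega
      rw [e, h3 (by omega)]
    · rw [List.length_append] at h5
      obtain ⟨rfl, rfl⟩ := h4 (by omega)
      exact ⟨rfl, rfl⟩

theorem RunQ.pre {u : Prog} {σ τ : Store} {t : ℕ} {L : List (List Bool)}
    (h : RunQ G s u σ t τ L) : ∀ {G' : Oracle} {s' t' : ℕ} {τ' : Store} {L' : List (List Bool)},
      RunQ G' s' u σ t' τ' L' → ∀ p, (∀ q ∈ L.take p, G' q = G q) → Pre p L L' τ τ' := by
  induction h with
  | nop σ =>
    intro G' s' t' τ' L' h' p _
    cases h'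
    exact ⟨fun h => by simp at h, fun _ => ⟨rfl, rfl⟩⟩
  | put r b σ h =>
    intro G' s' t' τ' L' h' p _
    cases h'
    exact ⟨fun h => by simp at h, fun _ => ⟨rfl, rfl⟩⟩
  | copy r q σ h =>
    intro G' s' t' τ' L' h' p _
    cases h'
    exact ⟨fun h => by simp at h, fun _ => ⟨rfl, rfl⟩⟩
  | ask r q σ _ _ =>
    intro G' s' t' τ' L' h' p hp
    cases h'
    refine ⟨fun _ => rfl, fun h => ⟨rfl, ?_⟩⟩
    simp only [List.length_singleton] at h
    rw [hp (σ r) (by rw [List.take_of_length_le (by simpa using h)]; simp)]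
  | @seq u v σ τ ρ t t' L1 L2 _ _ ih1 ih2 =>
    intro G' s' t'' τ' L' h' p hp
    cases h' with
    | seq h1 h2 =>
      refine (ih1 h1 p fun q hq => hp q ?_).append fun _ e2 h3 => ?_
      · rw [List.take_append]
        exact List.mem_append_left _ hq
      · subst e2
        exact ih2 h2 _ fun q hq => hp q (by
          rw [List.take_append]
          exact List.mem_append_right _ hq)
  | take_nil h0 _ ih =>
    intro G' s' t' τ' L' h' p hp
    cases h' with
    | take_nil _ h => exact ih h p hp
    | take_false h1 _ => rw [h0] at h1; cases h1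
    | take_true h1 _ => rw [h0] at h1; cases h1
  | take_false h0 _ ih =>
    intro G' s' t' τ' L' h' p hp
    cases h' with
    | take_nil h1 _ => rw [h0] at h1; cases h1
    | take_false h1 h => rw [h0] at h1; cases h1; exact ih h p hp
    | take_true h1 _ => rw [h0] at h1; cases h1
  | take_true h0 _ ih =>
    intro G' s' t' τ' L' h' p hp
    cases h' with
    | take_nil h1 _ => rw [h0] at h1; cases h1
    | take_false h1 _ => rw [h0] at h1; cases h1
    | take_true h1 h => rw [h0] at h1; cases h1; exact ih h p hp
  | loop_nil h0 =>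
    intro G' s' t' τ' L' h' p _
    cases h' with
    | loop_nil _ => exact ⟨fun h => by simp at h, fun _ => ⟨rfl, rfl⟩⟩
    | loop_cons h1 _ _ => exact absurd h0 h1
  | @loop_cons r u σ τ ρ t t' L1 L2 h0 _ _ ih1 ih2 =>
    intro G' s' t'' τ' L' h' p hp
    cases h' with
    | loop_nil h1 => exact absurd h1 h0
    | loop_cons _ h1 h2 =>
      refine (ih1 h1 p fun q hq => hp q ?_).append fun _ e2 h3 => ?_
      · rw [List.take_append]
        exact List.mem_append_left _ hq
      · subst e2
        exact ih2 h2 _ fun q hq => hp q (by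
          rw [List.take_append]
          exact List.mem_append_right _ hq)

/-- Numbers can be given to the objects of the questions of a run such that different objects
have different numbers. -/
theorem exists_naming {u : Prog} {σ : Store} {T : ℕ}
    (hu : ∀ R : Oracle, ∃ (s t : ℕ) (τ : Store), Run R s u σ t τ ∧ t ≤ T)
    (tg : List Bool → Option (List Bool)) (Φ : (List Bool → ℕ) → Oracle)
    (hΦ : ∀ N N' q, (∀ v, tg q = some v → N v = N' v) → Φ N q = Φ N' q) :
    ∃ N : List Bool → ℕ, (∀ v, N v ≤ T) ∧ (∀ v v', N v ≠ 0 → N v = N v' → v = v') ∧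
      ∃ (s t : ℕ) (τ : Store) (L : List (List Bool)), t ≤ T ∧ RunQ (Φ N) s u σ t τ L ∧
        ∀ q ∈ L, ∀ v, tg q = some v → N v ≠ 0 := by
  by_contra hcon
  have key : ∀ p : ℕ, ∃ N : List Bool → ℕ, (∀ v, N v ≤ p) ∧
      (∀ v v', N v ≠ 0 → N v = N v' → v = v') ∧
      ∃ (s t : ℕ) (τ : Store) (L : List (List Bool)), t ≤ T ∧ RunQ (Φ N) s u σ t τ L ∧
        p ≤ L.length ∧ ∀ q ∈ L.take p, ∀ v, tg q = some v → N v ≠ 0 := by
    intro p
    induction p with
    | zero =>
      obtain ⟨s, t, τ, h1, h2⟩ := hu (Φ fun _ => 0)
      obtain ⟨L, hL⟩ := exists_runQ h1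
      exact ⟨fun _ => 0, fun _ => le_rfl, fun v v' h => absurd rfl h, s, t, τ, L, h2, hL,
        Nat.zero_le _, fun q hq => by simp at hq⟩
    | succ p ih =>
      obtain ⟨N, h1, h2, s, t, τ, L, h3, h4, h5, h6⟩ := ih
      have hLt := h4.length_le
      rcases h5.eq_or_lt with h7 | h7
      · exfalso
        apply hcon
        refine ⟨N, fun v => (h1 v).trans (by omega), h2, s, t, τ, L, h3, h4, ?_⟩
        rwa [h7, List.take_length] at h6
      · have htk : L.take (p + 1) = L.take p ++ [L[p]] := by simp
        by_cases hq : ∃ v, tg L[p] = some v ∧ N v = 0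
        · obtain ⟨v, hv, hv0⟩ := hq
          obtain ⟨s', t', τ', h1', h2'⟩ := hu (Φ (update N v (p + 1)))
          obtain ⟨L', hL'⟩ := exists_runQ h1'
          have hag : ∀ q ∈ L.take p, Φ (update N v (p + 1)) q = Φ N q := by
            intro q hq
            refine hΦ _ _ _ fun v' hv' => ?_
            have h8 := h6 q hq v' hv'
            have h9 : v' ≠ v := by
              rintro rfl
              exact h8 hv0
            rw [update_of_ne h9]
          have h8 := (h4.pre hL' p hag).1 h7
          refine ⟨update N v (p + 1), fun w => ?_, fun w w' hw hww => ?_, s', t', τ', L', h2', hL',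
            take_length_le h8 h7, ?_⟩
          · by_cases h9 : w = v
            · rw [h9, update_self]
            · rw [update_of_ne h9]
              exact (h1 w).trans (by omega)
          · by_cases h9 : w = v <;> by_cases h10 : w' = v
            · rw [h9, h10]
            · rw [h9, update_self, update_of_ne h10] at hww
              have := h1 w'
              omega
            · rw [h10, update_self, update_of_ne h9] at hww
              have := h1 w
              omega
            · rw [update_of_ne h9] at hw
              rw [update_of_ne h9, update_of_ne h10] at hww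
              exact h2 w w' hw hww
          · rw [h8, htk]
            intro q hq w hw
            rw [List.mem_append, List.mem_singleton] at hq
            by_cases h9 : w = v
            · rw [h9, update_self]
              omega
            · rw [update_of_ne h9]
              rcases hq with hq | hq
              · exact h6 q hq w hw
              · rw [hq, hv, Option.some.injEq] at hw
                exact absurd hw.symm h9
        · push Not at hq
          refine ⟨N, fun v => (h1 v).trans (by omega), h2, s, t, τ, L, h3, h4, h7, ?_⟩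
          rw [htk]
          intro q hq' v hv
          rw [List.mem_append, List.mem_singleton] at hq'
          rcases hq' with hq' | hq'
          · exact h6 q hq' v hv
          · rw [hq'] at hv
            exact hq v hv
  obtain ⟨N, _, _, s, t, τ, L, h1, h2, h3, _⟩ := key (T + 1)
  have := h2.length_le
  omega

end Pool.Agent.L0h34.SD
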