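import Pool.Agent.L0h34.CO.Final

/-! # An oracle that gives few names to the instances -/

set_option autoImplicit false

namespace Pool.Agent.L0h34.SD

open Pool.Agent.L0h34.OM Pool.Agent.L0h34.RO
open Pool.Agent.L0h34.CO (Ix ok acc ex acc_local pc pc_inj cod Valid)

/-- The bound for the number of the free bits of the names. -/
class Hp where
  /-- The bound. -/
  f : ℕ → ℕ
  mono : Monotone f

variable [Hp]

/-- The number of the free bits of the names of length `n`. -/
def nb (n : ℕ) : ℕ := min n (Hp.f n)

/-- A bit of the name of `v`. -/
def bs (D : Oracle) (v : List Bool) (t : ℕ) : Bool := decide (t < nb v.length) && D (adr tS t v)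

/-- The name of `v`. -/
def nm (D : Oracle) (v : List Bool) : List Bool := (List.range v.length).map (bs D v)

/-- `b` is a name. -/
def Used (D : Oracle) (b : List Bool) : Prop := ∃ v : List Bool, v.length = b.length ∧ nm D v = b

/-- A string with the name `b`. -/
noncomputable def rep (D : Oracle) (b : List Bool) : List Bool :=
  Classical.epsilon fun v : List Bool => v.length = b.length ∧ nm D v = b

/-- The hidden witness for the name `b`. -/
def wit (D : Oracle) (b : List Bool) : List Bool := rd D tC b b.length

/-- The default values. -/
def dflt (D : Oracle) : List Bool → Bool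
  | false :: true :: _ => true
  | v => D (adr tM 0 v)

open Classical in
/-- The value of the instance `v`. -/
noncomputable def val (H D : Oracle) (v : List Bool) : Bool :=
  if ∃ i x, Valid v i x then decide (∃ i x, Valid v i x ∧ acc H i x) else dflt D v

/-- The value of the name `b`. -/
noncomputable def kk (H D : Oracle) (b : List Bool) : Bool :=
  xor (val H D (rep D b)) (D (adr tU 0 (rep D b)))

open Classical in
/-- The oracle that is given by the data `D`, if the values are computed with the oracle `H`. -/
noncomputable def step (H D : Oracle) : Oracle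
  | [] => false
  | [_] => false
  | true :: true :: v => xor (val H D v) (kk H D (nm D v))
  | true :: false :: s => D (true :: false :: s) &&
      decide (∃ (t : ℕ) (v : List Bool), s = ones t ++ false :: v ∧ t < nb v.length)
  | false :: κ :: q => decide (Used D (q.take (q.length / 2)) ∧
      q.drop (q.length / 2) = wit D (q.take (q.length / 2)) ∧
      κ = kk H D (q.take (q.length / 2)))

theorem length_nm (D : Oracle) (v : List Bool) : (nm D v).length = v.length := by simp [nm]

theorem length_wit (D : Oracle) (b : List Bool) : (wit D b).length = b.length := length_rd _ _ _ _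

theorem used_nm (D : Oracle) (v : List Bool) : Used D (nm D v) := ⟨v, (length_nm D v).symm, rfl⟩

theorem rep_spec {D : Oracle} {b : List Bool} (h : Used D b) :
    (rep D b).length = b.length ∧ nm D (rep D b) = b :=
  Classical.epsilon_spec (p := fun v : List Bool => v.length = b.length ∧ nm D v = b) h

/-- The data agree on all places that belong to strings of length less than `n`. -/
def Near (n : ℕ) (D D' : Oracle) : Prop := ∀ (τ : List Bool) (t : ℕ) (v : List Bool),
  τ.length = 2 → v.length < n → t ≤ v.length → D' (adr τ t v) = D (adr τ t v)

theorem Near.mono {n n' : ℕ} {D D' : Oracle} (h : Near n D D') (hn : n' ≤ n) : Near n' D D' :=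
  fun τ t v h1 h2 h3 => h τ t v h1 (by omega) h3

theorem near_of_agree {n N : ℕ} {D D' : Oracle} (h : Agree N D D') (hn : 2 * n + 2 ≤ N) :
    Near n D D' := fun τ t v h1 h2 h3 => h _ (by rw [length_adr]; omega)

theorem Near.nm {n : ℕ} {D D' : Oracle} (h : Near n D D') {v : List Bool} (hv : v.length < n) :
    nm D' v = nm D v := by
  refine List.map_congr_left fun t ht => ?_
  rw [List.mem_range] at ht
  simp only [bs, h tS t v rfl hv ht.le]

theorem Near.pred {n : ℕ} {D D' : Oracle} (h : Near n D D') {b : List Bool} (hb : b.length < n) :
    (fun v : List Bool => v.length = b.length ∧ SD.nm D' v = b) =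
      fun v : List Bool => v.length = b.length ∧ SD.nm D v = b := by
  funext v
  refine propext (and_congr_right fun hv => ?_)
  rw [h.nm (by omega)]

theorem Near.used {n : ℕ} {D D' : Oracle} (h : Near n D D') {b : List Bool} (hb : b.length < n) :
    Used D' b ↔ Used D b := by
  unfold Used
  exact exists_congr fun v => iff_of_eq (congrFun (h.pred hb) v)

theorem Near.rep {n : ℕ} {D D' : Oracle} (h : Near n D D') {b : List Bool} (hb : b.length < n) :
    rep D' b = rep D b := congrArg Classical.epsilon (h.pred hb)

theorem Near.wit {n : ℕ} {D D' : Oracle} (h : Near n D D') {b : List Bool} (hb : b.length < n) :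
    wit D' b = wit D b := rd_congr fun t ht => h tC t b rfl hb (by omega)

theorem Near.dflt {n : ℕ} {D D' : Oracle} (h : Near n D D') {v : List Bool} (hv : v.length < n) :
    dflt D' v = dflt D v := by
  match v with
  | false :: true :: _ => rfl
  | [] => exact h tM 0 _ rfl hv (Nat.zero_le _)
  | true :: _ => exact h tM 0 _ rfl hv (Nat.zero_le _)
  | [false] => exact h tM 0 _ rfl hv (Nat.zero_le _)
  | false :: false :: _ => exact h tM 0 _ rfl hv (Nat.zero_le _)

theorem val_congr {H H' D D' : Oracle} {v : List Bool}
    (h : ∀ q : List Bool, q.length < v.length → H' q = H q)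
    (hD : dflt D' v = dflt D v) : val H' D' v = val H D v := by
  have : ∀ i x, (Valid v i x ∧ acc H' i x) ↔ (Valid v i x ∧ acc H i x) := by
    intro i x
    refine and_congr_right fun hv => acc_local hv.1 fun q hq => h q (lt_of_le_of_lt hq hv.lt)
  unfold val
  by_cases hc : ∃ i x, Valid v i x
  · rw [if_pos hc, if_pos hc]
    exact decide_eq_decide.2 (exists_congr fun i => exists_congr fun x => this i x)
  · rw [if_neg hc, if_neg hc, hD]

theorem kk_congr {H H' D D' : Oracle} {n : ℕ} (h : Near n D D') {b : List Bool}
    (hb : b.length < n) (hu : Used D b) (hH : ∀ q : List Bool, q.length < b.length → H' q = H q) :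
    kk H' D' b = kk H D b := by
  have h1 := rep_spec hu
  have h2 : (rep D b).length < n := by omega
  unfold kk
  rw [h.rep hb, val_congr (H := H) (D := D) (fun q hq => hH q (by omega)) (h.dflt h2),
    h tU 0 _ rfl h2 (Nat.zero_le _)]

/-- The value of the oracle at a place that belongs to the strings of length `< n`. -/
theorem step_congr {H H' D D' : Oracle} {n : ℕ} (h : Near n D D')
    (hH : ∀ q : List Bool, q.length < n → H' q = H q) (q : List Bool)
    (hq : match q with
      | true :: true :: v => v.length < n
      | true :: false :: s => ∀ (t : ℕ) (v : List Bool), s = ones t ++ false :: v → v.length < n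
      | false :: _ :: q => q.length / 2 < n
      | _ => True) :
    step H' D' q = step H D q := by
  classical
  match q, hq with
  | [], _ => rfl
  | [_], _ => rfl
  | true :: true :: v, hq =>
    simp only at hq
    simp only [step]
    rw [h.nm hq, val_congr (H := H) (D := D) (fun q' hq' => hH q' (by omega)) (h.dflt hq),
      kk_congr (H := H) h (by rw [length_nm]; exact hq) (used_nm D v) fun q' hq' => hH q' (by
        rw [length_nm] at hq'; omega)]
  | true :: false :: s, hq =>
    simp only at hq
    simp only [step]
    by_cases hs : ∃ (t : ℕ) (v : List Bool), s = ones t ++ false :: v ∧ t < nb v.length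
    · obtain ⟨t, v, h1, h2⟩ := hs
      have h3 : t ≤ v.length := h2.le.trans (min_le_left _ _)
      have h4 : D' (true :: false :: s) = D (true :: false :: s) := by
        subst h1
        exact h tS t v rfl (hq t v rfl) h3
      rw [h4]
    · simp only [hs, decide_false, Bool.and_false]
  | false :: κ :: q, hq =>
    simp only at hq
    have hl : (q.take (q.length / 2)).length = q.length / 2 := by rw [List.length_take]; omega
    simp only [step]
    rw [decide_eq_decide, h.used (by omega), h.wit (by omega)]
    refine and_congr_right fun hu => and_congr_right fun _ => ?_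
    rw [kk_congr (H := H) h (by omega) hu fun q' hq' => hH q' (by omega)]

/-- The iteration. -/
noncomputable def it (D : Oracle) : ℕ → Oracle
  | 0 => fun _ => false
  | k + 1 => step (it D k) D

theorem step_congr' {H H' D : Oracle} {q : List Bool}
    (h : ∀ q' : List Bool, q'.length < q.length → H' q' = H q') : step H' D q = step H D q := by
  match q, h with
  | [], _ => rfl
  | [_], _ => rfl
  | true :: true :: v, h =>
    exact step_congr (n := v.length + 1) (fun _ _ _ _ _ _ => rfl)
      (fun q' hq' => h q' (by simp only [List.length_cons]; omega)) _ (Nat.lt_succ_self _)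
  | true :: false :: s, h =>
    refine step_congr (n := s.length + 1) (fun _ _ _ _ _ _ => rfl)
      (fun q' hq' => h q' (by simp only [List.length_cons]; omega)) _ ?_
    rintro t v rfl
    simp only [List.length_append, List.length_cons]
    omega
  | false :: κ :: q, h =>
    exact step_congr (n := q.length / 2 + 1) (fun _ _ _ _ _ _ => rfl)
      (fun q' hq' => h q' (by simp only [List.length_cons]; omega)) _ (Nat.lt_succ_self _)

theorem it_eq (D : Oracle) (n : ℕ) : ∀ q : List Bool, q.length < n → ∀ k l, q.length < k →
    q.length < l → it D k q = it D l q := by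
  induction n with
  | zero => intro q hq; omega
  | succ n ih =>
    intro q hq k l hk hl
    obtain ⟨k, rfl⟩ : ∃ k', k = k' + 1 := ⟨k - 1, by omega⟩
    obtain ⟨l, rfl⟩ : ∃ l', l = l' + 1 := ⟨l - 1, by omega⟩
    exact step_congr' fun q' hq' => ih q' (by omega) k l (by omega) (by omega)

/-- The oracle given by the data `D`. -/
noncomputable def G (D : Oracle) : Oracle := fun q => it D (q.length + 1) q

theorem G_eq (D : Oracle) (q : List Bool) : G D q = step (G D) D q :=
  step_congr' (H := G D) (H' := it D q.length) (fun q' hq' =>
    it_eq D (q'.length + 1) q' (by omega) q.length (q'.length + 1) hq' (by omega))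

/-- The value of `v`. -/
noncomputable def kap (D : Oracle) (v : List Bool) : Bool := val (G D) D v

/-- The value of the name `b`. -/
noncomputable def kn (D : Oracle) (b : List Bool) : Bool := kk (G D) D b

theorem kn_eq (D : Oracle) (b : List Bool) :
    kn D b = xor (kap D (rep D b)) (D (adr tU 0 (rep D b))) := rfl

theorem G_nil (D : Oracle) : G D [] = false := by rw [G_eq]; rfl

theorem G_one (D : Oracle) (a : Bool) : G D [a] = false := by rw [G_eq]; rfl

theorem G_r (D : Oracle) (v : List Bool) :
    G D (true :: true :: v) = xor (kap D v) (kn D (nm D v)) := by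
  rw [G_eq]; rfl

theorem G_base (D : Oracle) (t : ℕ) (v : List Bool) : G D (adr tS t v) = bs D v t := by
  classical
  have h : G D (true :: false :: (ones t ++ false :: v)) =
      (D (true :: false :: (ones t ++ false :: v)) && decide (∃ (t' : ℕ) (v' : List Bool),
        ones t ++ false :: v = ones t' ++ false :: v' ∧ t' < nb v'.length)) := by
    rw [G_eq]; rfl
  have h2 : (∃ (t' : ℕ) (v' : List Bool), ones t ++ false :: v = ones t' ++ false :: v' ∧
      t' < nb v'.length) ↔ t < nb v.length := by
    constructor
    · rintro ⟨t', v', h3, h4⟩
      obtain ⟨rfl, rfl⟩ := replicate_append_inj h3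
      exact h4
    · intro h3
      exact ⟨t, v, rfl, h3⟩
  rw [decide_eq_decide.2 h2] at h
  refine h.trans ?_
  rw [bs, Bool.and_comm]
  rfl

theorem rd_base (D : Oracle) (v : List Bool) : rd (G D) [true, false] v v.length = nm D v :=
  List.map_congr_left fun t _ => G_base D t v

theorem G_code (D : Oracle) (κ : Bool) (q : List Bool) : G D (false :: κ :: q) = true ↔
    Used D (q.take (q.length / 2)) ∧ q.drop (q.length / 2) = wit D (q.take (q.length / 2)) ∧
      κ = kn D (q.take (q.length / 2)) := by
  rw [G_eq]
  simp only [step, decide_eq_true_eq]
  rfl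

theorem G_code' (D : Oracle) (κ : Bool) {b w : List Bool} (h : w.length = b.length) :
    G D (false :: κ :: (b ++ w)) = true ↔ Used D b ∧ w = wit D b ∧ κ = kn D b := by
  have h1 : (b ++ w).length / 2 = b.length := by rw [List.length_append]; omega
  rw [G_code, h1]
  simp

/-- The set of the instances with the value `true`. -/
def setK (D : Oracle) : Set (List Bool) := {v | kap D v = true}

/-- The set of the names with a bit that is not their value. -/
def setA (D : Oracle) : Set (List Bool) :=
  {z | ∃ (c : Bool) (b : List Bool), z = c :: b ∧ Used D b ∧ kn D b ≠ c}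

theorem mem_setA (D : Oracle) (c : Bool) (b : List Bool) :
    c :: b ∈ setA D ↔ Used D b ∧ kn D b ≠ c := by
  constructor
  · rintro ⟨c', b', h1, h2⟩
    simp only [List.cons.injEq] at h1
    obtain ⟨rfl, rfl⟩ := h1
    exact h2
  · intro h
    exact ⟨c, b, rfl, h⟩

/-- The reduction. -/
theorem red_iff (D : Oracle) (v : List Bool) :
    v ∈ setK D ↔ G D (true :: true :: v) :: nm D v ∈ setA D := by
  rw [mem_setA, G_r, setK, Set.mem_ofPred_eq]
  generalize kap D v = a
  generalize kn D (nm D v) = b
  simp only [used_nm, true_and]
  revert a b
  decide

theorem kap_cod (D : Oracle) {i : Ix} (hi : ok i) {p : ℕ} {x : List Bool}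
    (hp : lbd (ex i) x.length ≤ p) : kap D (cod i p x) = true ↔ acc (G D) i x := by
  classical
  have hv : Valid (cod i p x) i x := ⟨hi, p, hp, rfl⟩
  have h1 : ∃ i' x', Valid (cod i p x) i' x' := ⟨i, x, hv⟩
  rw [kap, val, if_pos h1, decide_eq_true_eq]
  constructor
  · rintro ⟨j, y, h2, h3⟩
    obtain ⟨rfl, rfl⟩ := h2.unique hv
    exact h3
  · intro h
    exact ⟨i, x, hv, h⟩

theorem kap_false (D : Oracle) (v : List Bool) : kap D (false :: v) = dflt D (false :: v) := by
  have : ¬ ∃ i x, Valid (false :: v) i x := by
    rintro ⟨i, x, _, p, _, h⟩
    simp [cod, ones, List.replicate_succ] at h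
  rw [kap, val, if_neg this]

theorem kap_free (D : Oracle) (v : List Bool) :
    kap D (false :: false :: v) = D (adr tM 0 (false :: false :: v)) := kap_false D _

theorem kap_true (D : Oracle) (v : List Bool) : kap D (false :: true :: v) = true :=
  kap_false D _

/-! ### Locality -/

/-- The place `q` belongs to a string of length less than `n`. -/
def Low (n : ℕ) : List Bool → Prop
  | true :: true :: v => v.length < n
  | true :: false :: s => ∀ (t : ℕ) (v : List Bool), s = ones t ++ false :: v → v.length < n
  | false :: _ :: q => q.length / 2 < n
  | _ => True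

theorem low_of_length {n : ℕ} {q : List Bool} (h : q.length < n) : Low n q := by
  match q, h with
  | [], _ => trivial
  | [true], _ => trivial
  | [false], _ => trivial
  | true :: true :: v, h => simp only [List.length_cons] at h; simp only [Low]; omega
  | true :: false :: s, h =>
    simp only [List.length_cons] at h
    rintro t v rfl
    simp only [List.length_append, List.length_cons] at h
    omega
  | false :: _ :: q, h => simp only [List.length_cons] at h; simp only [Low]; omega

theorem G_congr {D D' : Oracle} {n : ℕ} (h : Near n D D') :
    ∀ q : List Bool, Low n q → G D' q = G D q := by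
  have key : ∀ m ≤ n, ∀ q : List Bool, q.length < m → G D' q = G D q := by
    intro m
    induction m with
    | zero => intro _ q hq; omega
    | succ m ih =>
      intro hm q hq
      rw [G_eq, G_eq]
      rcases Nat.lt_or_ge q.length m with h1 | h1
      · rw [← G_eq, ← G_eq]
        exact ih (by omega) q h1
      · have h2 : step (G D') D' q = step (G D) D' q :=
          step_congr' fun q' hq' => ih (by omega) q' (by omega)
        rw [h2]
        exact step_congr h (fun _ _ => rfl) q (low_of_length (by omega))
  intro q hq
  rw [G_eq, G_eq]
  exact step_congr h (fun q' hq' => key n le_rfl q' hq') q hq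

theorem kap_congr {D D' : Oracle} {n : ℕ} (h : Near n D D') {v : List Bool} (hv : v.length < n) :
    kap D' v = kap D v :=
  val_congr (fun q hq => G_congr h q (low_of_length (by omega))) (h.dflt hv)

theorem kn_congr {D D' : Oracle} {n : ℕ} (h : Near n D D') {b : List Bool} (hb : b.length < n)
    (hu : Used D b) : kn D' b = kn D b :=
  kk_congr h hb hu fun q hq => G_congr h q (low_of_length (by omega))

end Pool.Agent.L0h34.SD
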