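import Pool.Agent.L0h34.SD.Ask

/-! # The extension lemma -/

set_option autoImplicit false

namespace Pool.Agent.L0h34.SD

open Pool.Agent.L0h34.OM Pool.Agent.L0h34.RO Function

variable [Hp]

/-- The place `q` belongs to a string of length at least `n`. -/
def Far (n : ℕ) (q : List Bool) : Prop :=
  ∃ p : List Bool × ℕ × List Bool, p.1.length = 2 ∧ n ≤ p.2.2.length ∧ q = adr p.1 p.2.1 p.2.2

open Classical in
/-- Take the far places from `E`. -/
noncomputable def mk (n : ℕ) (D : Oracle) (E : List Bool → ℕ → List Bool → Bool) : Oracle := fun q =>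
  if h : Far n q then E h.choose.1 h.choose.2.1 h.choose.2.2 else D q

variable {n : ℕ} {D : Oracle} {E : List Bool → ℕ → List Bool → Bool}

theorem mk_far {τ : List Bool} (hτ : τ.length = 2) (t : ℕ) {v : List Bool} (hv : n ≤ v.length) :
    mk n D E (adr τ t v) = E τ t v := by
  have h : Far n (adr τ t v) := ⟨(τ, t, v), hτ, hv, rfl⟩
  rw [mk, dif_pos h]
  obtain ⟨h1, _, h2⟩ := h.choose_spec
  obtain ⟨h3, h4, h5⟩ := adr_inj (by rw [h1, hτ]) h2.symm
  rw [h3, h4, h5]

theorem mk_near {τ : List Bool} (hτ : τ.length = 2) (t : ℕ) {v : List Bool} (hv : v.length < n) :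
    mk n D E (adr τ t v) = D (adr τ t v) := by
  refine dif_neg ?_
  rintro ⟨⟨τ', t', v'⟩, h1, h2, h3⟩
  have := (adr_inj (by rw [h1, hτ]) h3).2.2
  rw [this] at hv
  omega

theorem near_mk (n : ℕ) (D : Oracle) (E : List Bool → ℕ → List Bool → Bool) :
    Near n D (mk n D E) := fun _ t _ h1 h2 _ => mk_near h1 t h2

theorem agree_mk (n : ℕ) (D : Oracle) (E : List Bool → ℕ → List Bool → Bool) :
    Agree n D (mk n D E) := by
  intro q hq
  refine dif_neg ?_
  rintro ⟨⟨τ, t, v⟩, h1, h2, rfl⟩
  rw [length_adr] at hq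
  simp only at h1 h2 hq
  omega

/-- The new data. -/
def en (N : List Bool → ℕ) (W : List Bool → List Bool) (c : Bool) (τ : List Bool) (t : ℕ)
    (v : List Bool) : Bool :=
  if τ = tS then (N v).testBit t else if τ = tU then false else
    if τ = tC then (W v).getD t false else c

variable {N : List Bool → ℕ} {W : List Bool → List Bool} {c : Bool}

theorem bs_mk {v : List Bool} (hv : n ≤ v.length) (t : ℕ) :
    bs (mk n D (en N W c)) v t = (decide (t < nb v.length) && (N v).testBit t) := by
  rw [bs, mk_far rfl t hv]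
  rfl

theorem wit_mk {b : List Bool} (hb : n ≤ b.length) (hW : (W b).length = b.length) :
    wit (mk n D (en N W c)) b = W b := by
  refine List.ext_getElem (by rw [length_wit, hW]) fun t h1 h2 => ?_
  simp only [wit, rd, List.getElem_map, List.getElem_range]
  rw [mk_far rfl t hb]
  have : en N W c tC t b = (W b).getD t false := by simp [en, tC, tS, tU]
  rw [this, List.getD_eq_getElem _ _ h2]

theorem kap_mk {x : List Bool} (hx : n ≤ (false :: false :: x).length) :
    kap (mk n D (en N W c)) (false :: false :: x) = c := by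
  rw [kap_free, mk_far rfl 0 hx]
  simp [en, tM, tS, tU, tC]

theorem nb_mono {a b : ℕ} (h : a ≤ b) : nb a ≤ nb b := by
  unfold nb
  exact min_le_min h (Hp.mono h)

theorem number_eq {T : ℕ} (hT : T < 2 ^ nb n) (hN : ∀ v, N v ≤ T) {v v' : List Bool}
    (hv : n ≤ v.length) (hl : v.length = v'.length)
    (h : nm (mk n D (en N W c)) v = nm (mk n D (en N W c)) v') : N v = N v' := by
  refine Nat.eq_of_testBit_eq fun t => ?_
  rcases Nat.lt_or_ge t (nb v.length) with ht | ht
  · have hts : t < v.length := lt_of_lt_of_le ht (min_le_left _ _)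
    have h1 := congrArg (fun l => l.getD t false) h
    simp only [nm] at h1
    rw [List.getD_eq_getElem _ _ (by simpa using hts), List.getD_eq_getElem _ _ (by
      simp only [List.length_map, List.length_range]; omega)] at h1
    simp only [List.getElem_map, List.getElem_range] at h1
    rw [bs_mk hv, bs_mk (by omega), ← hl, decide_eq_true ht] at h1
    simpa using h1
  · have h2 : ∀ w, N w < 2 ^ t := fun w => lt_of_le_of_lt (hN w) (lt_of_lt_of_le hT
      (Nat.pow_le_pow_right (by norm_num) ((nb_mono hv).trans ht)))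
    rw [Nat.testBit_lt_two_pow (h2 v), Nat.testBit_lt_two_pow (h2 v')]

theorem G_r_mk {T : ℕ} (hT : T < 2 ^ nb n) (hN : ∀ v, N v ≤ T)
    (hinj : ∀ v v', N v ≠ 0 → N v = N v' → v = v') {v : List Bool} (hv : n ≤ v.length)
    (h0 : N v ≠ 0) : G (mk n D (en N W c)) (true :: true :: v) = false := by
  obtain ⟨D', hD'⟩ : ∃ D', mk n D (en N W c) = D' := ⟨_, rfl⟩
  have h1 := rep_spec (used_nm D' v)
  rw [length_nm] at h1
  have h2 : N v = N (rep D' (nm D' v)) := by
    rw [← hD'] at h1 ⊢
    exact number_eq hT hN hv h1.1.symm h1.2.symm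
  have h3 := hinj _ _ h0 h2
  rw [hD', G_r, kn_eq, ← h3]
  have h4 : D' (adr tU 0 v) = false := by
    rw [← hD', mk_far rfl 0 hv]
    rfl
  rw [h4, Bool.xor_false, Bool.xor_self]

/-- The part of the oracle that does not depend on the values. -/
def vis (n : ℕ) (H : Oracle) : Oracle
  | true :: true :: v => if n ≤ v.length then false else H (true :: true :: v)
  | false :: κ :: q => if n ≤ q.length / 2 then false else H (false :: κ :: q)
  | q => H q

/-- The string `v` is the object of the question `q`. -/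
def Tg (n : ℕ) (q v : List Bool) : Prop := (q = true :: true :: v ∨ ∃ t, q = adr tS t v) ∧ n ≤ v.length

theorem Tg.unique {q v v' : List Bool} (h : Tg n q v) (h' : Tg n q v') : v = v' := by
  obtain ⟨h1 | ⟨t, h1⟩, _⟩ := h <;> obtain ⟨h2 | ⟨t', h2⟩, _⟩ := h' <;> rw [h1] at h2
  · simpa using h2
  · simp [adr, tS] at h2
  · simp [adr, tS] at h2
  · exact (adr_inj rfl h2).2.2

open Classical in
/-- The object of a question. -/
noncomputable def tg (n : ℕ) (q : List Bool) : Option (List Bool) :=
  if h : ∃ v, Tg n q v then some h.choose else none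

theorem tg_eq {q v : List Bool} (h : Tg n q v) : tg n q = some v := by
  have h1 : ∃ v, Tg n q v := ⟨v, h⟩
  rw [tg, dif_pos h1, h1.choose_spec.unique h]

/-- The cases for a question. -/
theorem cases_q (n : ℕ) (q : List Bool) : Low n q ∨
    (∃ v, q = true :: true :: v ∧ n ≤ v.length) ∨ (∃ t v, q = adr tS t v ∧ n ≤ v.length) ∨
    ∃ κ q', q = false :: κ :: q' ∧ n ≤ q'.length / 2 := by
  match q with
  | [] => exact Or.inl trivial
  | [true] => exact Or.inl trivial
  | [false] => exact Or.inl trivial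
  | true :: true :: v =>
    rcases Nat.lt_or_ge v.length n with h | h
    · exact Or.inl h
    · exact Or.inr (Or.inl ⟨v, rfl, h⟩)
  | true :: false :: s =>
    by_cases h : ∃ (t : ℕ) (v : List Bool), s = ones t ++ false :: v ∧ n ≤ v.length
    · obtain ⟨t, v, h1, h2⟩ := h
      exact Or.inr (Or.inr (Or.inl ⟨t, v, by rw [h1]; rfl, h2⟩))
    · refine Or.inl fun t v hs => ?_
      by_contra hc
      exact h ⟨t, v, hs, by omega⟩
  | false :: κ :: q =>
    rcases Nat.lt_or_ge (q.length / 2) n with h | h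
    · exact Or.inl h
    · exact Or.inr (Or.inr (Or.inr ⟨κ, q, rfl, h⟩))

theorem vis_low (H : Oracle) {q : List Bool} (h : Low n q) : vis n H q = H q := by
  match q, h with
  | [], _ => rfl
  | [true], _ => rfl
  | [false], _ => rfl
  | true :: true :: v, h =>
    simp only [Low] at h
    simp only [vis]
    rw [if_neg (by omega)]
  | true :: false :: s, _ => rfl
  | false :: κ :: q, h =>
    simp only [Low] at h
    simp only [vis]
    rw [if_neg (by omega)]

theorem vis_mk (E E' : List Bool → ℕ → List Bool → Bool) (q : List Bool)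
    (h : ∀ t v, q = adr tS t v → n ≤ v.length → E tS t v = E' tS t v) :
    vis n (G (mk n D E)) q = vis n (G (mk n D E')) q := by
  rcases cases_q n q with hq | ⟨v, rfl, hv⟩ | ⟨t, v, rfl, hv⟩ | ⟨κ, q', rfl, hq⟩
  · rw [vis_low _ hq, vis_low _ hq, G_congr (near_mk n D E) q hq, G_congr (near_mk n D E') q hq]
  · simp only [vis, if_pos hv]
  · have h1 : ∀ H : Oracle, vis n H (adr tS t v) = H (adr tS t v) := fun H => rfl
    rw [h1, h1, G_base, G_base, bs, bs, mk_far rfl t hv, mk_far rfl t hv, h t v rfl hv]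
  · simp only [vis, if_pos hq]

theorem exists_wit {L : List (List Bool)} {b : List Bool} (h : L.length < 2 ^ b.length) :
    ∃ w : List Bool, w.length = b.length ∧ ∀ κ : Bool, false :: κ :: (b ++ w) ∉ L := by
  classical
  by_contra hcon
  push Not at hcon
  have h1 : ∀ f : Fin b.length → Bool, ∃ κ, false :: κ :: (b ++ List.ofFn f) ∈ L := fun f => by
    obtain ⟨κ, hκ⟩ := hcon (List.ofFn f) (List.length_ofFn)
    exact ⟨κ, hκ⟩
  choose κ hκ using h1
  have h2 : Fintype.card (Fin b.length → Bool) ≤ L.toFinset.card := by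
    rw [← Finset.card_univ]
    refine Finset.card_le_card_of_injOn (fun f => false :: κ f :: (b ++ List.ofFn f))
      (fun f _ => by simpa using hκ f) ?_
    intro f _ f' _ hf
    simp only [List.cons.injEq, true_and, List.append_cancel_left_eq] at hf
    exact List.ofFn_injective hf.2
  have h3 := L.toFinset_card_le
  simp only [Fintype.card_fun, Fintype.card_bool, Fintype.card_fin] at h2
  omega

/-- The program `u` is fast on arbitrarily long inputs. -/
def Fast (u : Prog) : Prop := ∀ N : ℕ, ∃ n ≥ N, 2 ≤ n ∧ ∃ T : ℕ, T < 2 ^ nb n ∧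
  ∀ (R : Oracle) (x : List Bool), x.length = n → ∃ (s t : ℕ) (τ : Store),
    Run R s u (init x) t τ ∧ t ≤ T

/-- Extension: the decision procedure fails. -/
theorem ext_dec {u : Prog} (hu : Fast u) (D : Oracle) (N₀ : ℕ) : ∃ D', Agree N₀ D D' ∧
    ∃ x z, Output (G D') u x z ∧ ¬ (x ∈ setK D' ↔ z ≠ []) := by
  classical
  obtain ⟨n, hn, hn2, T, hT, hrun⟩ := hu N₀
  obtain ⟨y, hy⟩ : ∃ y : List Bool, y.length = n - 2 := ⟨List.replicate (n - 2) false, by simp⟩
  have hx : (false :: false :: y).length = n := by simp only [List.length_cons]; omega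
  obtain ⟨N, h1, h2, s, t, τ, L, h3, h4, h5⟩ := exists_naming (u := u)
    (σ := init (false :: false :: y)) (fun R => hrun R _ hx) (tg n)
    (fun N => vis n (G (mk n D (en N (fun _ => []) false)))) (by
      intro N N' q h
      refine vis_mk _ _ q fun t v hq hv => ?_
      have : N v = N' v := h v (tg_eq ⟨Or.inr ⟨t, hq⟩, hv⟩)
      simp only [en, if_pos, this])
  have hL : ∀ b : List Bool, n ≤ b.length → L.length < 2 ^ b.length := by
    intro b hb
    have h6 := h4.length_le
    have h7 : nb n ≤ b.length := (min_le_left _ _).trans hb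
    have h8 := Nat.pow_le_pow_right (show 0 < 2 by norm_num) h7
    omega
  have hW : ∀ b : List Bool, ∃ w : List Bool, n ≤ b.length → (w.length = b.length ∧
      ∀ κ : Bool, false :: κ :: (b ++ w) ∉ L) := by
    intro b
    by_cases hb : n ≤ b.length
    · obtain ⟨w, hw⟩ := exists_wit (hL b hb)
      exact ⟨w, fun _ => hw⟩
    · exact ⟨[], fun h => absurd h hb⟩
  choose W hW using hW
  obtain ⟨c, hc⟩ : ∃ c : Bool, c = decide (τ 0 = []) := ⟨_, rfl⟩
  refine ⟨mk n D (en N W c), (agree_mk n D _).mono hn, false :: false :: y, τ 0,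
    ⟨s, t, τ, h4.run_of fun q hq => ?_, rfl⟩, ?_⟩
  · have h6 : vis n (G (mk n D (en N (fun _ => []) false))) q =
        vis n (G (mk n D (en N W c))) q := vis_mk _ _ q fun t v _ _ => rfl
    rw [h6]
    rcases cases_q n q with hq' | ⟨v, rfl, hv⟩ | ⟨t, v, rfl, hv⟩ | ⟨κ, q', rfl, hq'⟩
    · rw [vis_low _ hq']
    · rw [G_r_mk hT h1 h2 hv (h5 _ hq v (tg_eq ⟨Or.inl rfl, hv⟩))]
      simp only [vis, if_pos hv]
    · rfl
    · simp only [vis, if_pos hq']
      rw [Bool.eq_false_iff]
      intro h7
      rw [G_code] at h7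
      obtain ⟨_, h8, _⟩ := h7
      have hl : (q'.take (q'.length / 2)).length = q'.length / 2 := by rw [List.length_take]; omega
      obtain ⟨h9, h10⟩ := hW (q'.take (q'.length / 2)) (by rw [hl]; exact hq')
      rw [wit_mk (by rw [hl]; exact hq') h9] at h8
      apply h10 κ
      rw [← h8, List.take_append_drop]
      exact hq
  · rw [setK, Set.mem_ofPred_eq, kap_mk hx.ge, hc, decide_eq_true_eq]
    tauto

theorem output_local {D : Oracle} {u : Prog} {x z : List Bool} (h : Output (G D) u x z) :
    ∃ N, ∀ D', Agree N D D' → Output (G D') u x z := by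
  obtain ⟨s, t, τ, h1, h2⟩ := h
  refine ⟨2 * (s + 1) + 2, fun D' h3 => ⟨s, t, τ, h1.local_length fun q hq => ?_, h2⟩⟩
  exact G_congr (near_of_agree h3 le_rfl) q (low_of_length (by omega))

theorem exists_data : ∃ D : Oracle, ∀ u : Prog, Fast u →
    ∃ x z, Output (G D) u x z ∧ ¬ (x ∈ setK D ↔ z ≠ []) := by
  have hd : Dense (⋂ u : Prog, {D : Oracle | Fast u → ∃ x z, Output (G D) u x z ∧
      ¬ (x ∈ setK D ↔ z ≠ [])}) := by
    refine dense_iInter_of_isOpen (fun u => ?_) fun u => ?_
    · refine CO.isOpen_of_ext fun D hD => ?_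
      by_cases hu : Fast u
      swap
      · exact ⟨0, fun D' _ h => absurd h hu⟩
      obtain ⟨x, z, h1, h2⟩ := hD hu
      obtain ⟨N, hN⟩ := output_local h1
      refine ⟨N + 2 * (x.length + 1) + 2, fun D' h3 _ => ⟨x, z, hN D' (h3.mono (by omega)), ?_⟩⟩
      simp only [setK, Set.mem_ofPred_eq] at h2 ⊢
      rwa [kap_congr (near_of_agree h3 (n := x.length + 1) (by omega)) (by omega)]
    · refine CO.dense_of_ext fun D N => ?_
      by_cases hu : Fast u
      swap
      · exact ⟨D, fun _ _ => rfl, fun h => absurd h hu⟩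
      obtain ⟨D', h1, h2⟩ := ext_dec hu D N
      exact ⟨D', h1, fun _ => h2⟩
  obtain ⟨D, hD⟩ := hd.nonempty
  exact ⟨D, fun u hu => Set.mem_iInter.1 hD u hu⟩

end Pool.Agent.L0h34.SD
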