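import Pool.Agent.L0h34.SD.Prog

/-! # Complete sets with few elements -/

set_option autoImplicit false

namespace Pool.Agent.L0h34.SD

open Pool.Agent.L0h34.OM Pool.Agent.L0h34.RO
open Pool.Agent.L0h34.CO (Ix ok ex codP inst tI pb_tI go_inst pc npu_of_ver pt_self cod)

/-- The program `u` computes `f` in polynomial time for all oracles. -/
def Tr (u : Prog) (f : Oracle → List Bool → List Bool) : Prop :=
  ∃ c, ∀ (R : Oracle) (x W : List Bool), Go R u (s2 x W) (x.length ^ c + c) (s2 (f R x) W)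

theorem init_eq_s2 (x : List Bool) : init x = s2 x [] := init_eq20 x

theorem length_s2 (x : List Bool) (r : ℕ) : (s2 x [] r).length ≤ x.length := by
  rw [← init_eq_s2, init]
  split_ifs <;> simp

theorem go_space {R : Oracle} {u : Prog} {x : List Bool} {T : ℕ} {τ : Store}
    (h : Go R u (s2 x []) T τ) : Reach R (x.length + T) u (s2 x []) T τ ∧
      (τ 0).length ≤ x.length + T := by
  obtain ⟨s, t, ht, h⟩ := h
  obtain ⟨h1, h2⟩ := h.length_le (length_s2 x)
  exact ⟨⟨t, ht, h2.mono (by omega)⟩, (h1 0).trans (by omega)⟩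

theorem length_of_tr {u : Prog} {f : Oracle → List Bool → List Bool} {c : ℕ}
    (h : ∀ (R : Oracle) (x W : List Bool), Go R u (s2 x W) (x.length ^ c + c) (s2 (f R x) W))
    (R : Oracle) (x : List Bool) : (f R x).length ≤ x.length + (x.length ^ c + c) :=
  (go_space (h R x [])).2

theorem Tr.comp {u v : Prog} {f g : Oracle → List Bool → List Bool} (hu : Tr u f) (hv : Tr v g) :
    Tr (.seq u v) fun R x => g R (f R x) := by
  obtain ⟨c, hc⟩ := hu
  obtain ⟨d, hd⟩ := hv
  obtain ⟨e, he⟩ : PB fun n => n ^ c + c + ((n + (n ^ c + c)) ^ d + d) :=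
    ((PB.id.pow c).add (PB.const c)).add
      (((PB.id.add ((PB.id.pow c).add (PB.const c))).pow d).add (PB.const d))
  refine ⟨e, fun R x W => ((hc R x W).seq (hd R (f R x) W)).mono ?_⟩
  have h1 := Nat.pow_le_pow_left (length_of_tr hc R x) d
  have h2 := he x.length
  simp only at h2
  omega

theorem Tr.nop : Tr .nop fun _ x => x :=
  ⟨1, fun _ _ _ => Go.nop.mono (by omega)⟩

theorem Tr.fpu {u : Prog} {f : Oracle → List Bool → List Bool} (hu : Tr u f) (R : Oracle) :
    FPU R (f R) := by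
  obtain ⟨c, hc⟩ := hu
  refine ⟨u, c, fun R' x => ?_, fun x => ?_⟩
  · obtain ⟨s, t, ht, h⟩ := hc R' x []
    exact ⟨s, t, _, by rw [init_eq_s2]; exact h, ht⟩
  · obtain ⟨s, t, ht, h⟩ := hc R x []
    exact ⟨s, t, _, by rw [init_eq_s2]; exact h, rfl⟩

theorem Tr.npu {u : Prog} {f : Oracle → List Bool → List Bool} (hu : Tr u f) (R : Oracle) :
    NPU R {x | ∃ W, gA R (f R x) W = true} := by
  obtain ⟨c, hc⟩ := hu
  refine npu_of_ver (u := .seq u verA)
    (F := fun n => n ^ c + c + (20 * (n + (n ^ c + c)) + 60))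
    (((PB.id.pow c).add (PB.const c)).add (((PB.const 20).mul
      (PB.id.add ((PB.id.pow c).add (PB.const c)))).add (PB.const 60)))
    (g := fun R x W => gA R (f R x) W) fun R x W => ?_
  obtain ⟨τ, h1, h2⟩ := go_verA (G := R) (f R x) W
  refine ⟨τ, h1, ?_⟩
  rw [init2_eq]
  refine ((hc R x W).seq h2).mono ?_
  have := length_of_tr hc R x
  omega

theorem Tr.pspaceu {u : Prog} {f : Oracle → List Bool → List Bool} (hu : Tr u f) (R : Oracle) :
    PSPACEU R {x | ∃ W, gA R (f R x) W = true} := by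
  obtain ⟨c, hc⟩ := hu
  obtain ⟨e, he⟩ : PB fun n => 50 * (n + (n ^ c + c)) + 70 :=
    ((PB.const 50).mul (PB.id.add ((PB.id.pow c).add (PB.const c)))).add (PB.const 70)
  have key : ∀ (R : Oracle) (x : List Bool), ∃ (t : ℕ) (τ : Store),
      Run R (x.length ^ e + e) (.seq u srcA) (init x) t τ ∧ (τ 0 ≠ [] ↔ ∃ W, gA R (f R x) W = true) := by
    intro R x
    obtain ⟨T, τ, h1, h2⟩ := go_srcA (G := R) (f R x)
    obtain ⟨h3, h4⟩ := go_space (hc R x [])
    have h5 := length_of_tr hc R x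
    have h6 := he x.length
    simp only at h6
    rw [init_eq_s2] at h1 ⊢
    obtain ⟨t, _, h7⟩ := (h3.mono_space (s' := x.length ^ e + e) (by omega)).seq
      (h1.mono_space (s' := x.length ^ e + e) (by omega))
    exact ⟨t, τ, h7, h2⟩
  refine ⟨.seq u srcA, e, fun R x => ?_, fun x => ?_⟩
  · obtain ⟨t, τ, h, _⟩ := key R x
    exact ⟨t, τ, h⟩
  · obtain ⟨t, τ, h, h'⟩ := key R x
    rw [Set.mem_ofPred_eq, ← h']
    constructor
    · intro h2
      exact ⟨_, t, τ, h, h2⟩
    · rintro ⟨s2, t2, τ2, h8, h9⟩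
      rw [(h.det h8).2]
      exact h9

theorem tr_red : Tr redP fun R v => R (true :: true :: v) :: rd R [true, false] v v.length := by
  obtain ⟨c, hc⟩ : PB fun n => 16 * n * n + 100 * n + 60 :=
    ((((PB.const 16).mul PB.id).mul PB.id).add ((PB.const 100).mul PB.id)).add (PB.const 60)
  exact ⟨c, fun R x W => (go_redP (G := R) (V := x) (W := W)).mono (hc _)⟩

theorem tr_inst (i : Ix) : Tr (codP (pc i + 1) (ex i + 20) (eM (ex i) 0)) fun _ x => inst i x := by
  obtain ⟨c, hc⟩ := pb_tI i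
  exact ⟨c, fun R x W => (go_inst R i x W).mono (hc _)⟩

section Names

variable [Hp]

theorem gA_iff (D : Oracle) (z : List Bool) : (∃ W, gA (G D) z W = true) ↔ z ∈ setA D := by
  match z with
  | [] =>
    simp only [gA, Bool.false_eq_true, exists_false, false_iff]
    rintro ⟨c, b, h, _⟩
    simp at h
  | c :: b =>
    rw [mem_setA]
    simp only [gA]
    constructor
    · rintro ⟨W, hW⟩
      obtain ⟨h1, _, h2⟩ := (G_code' D _ (length_pt _ _)).1 hW
      refine ⟨h1, ?_⟩
      rw [← h2]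
      cases c <;> simp
    · rintro ⟨h1, h2⟩
      refine ⟨wit D b, ?_⟩
      have : pt b.length (wit D b) = wit D b := by
        have := pt_self (wit D b)
        rwa [length_wit] at this
      rw [this]
      refine (G_code' D _ (length_wit D b)).2 ⟨h1, rfl, ?_⟩
      revert h2
      generalize kn D b = a
      cases a <;> cases c <;> simp

theorem kap_inst (D : Oracle) {i : Ix} (hi : ok i) (x : List Bool) :
    kap D (inst i x) = true ↔ CO.acc (G D) i x := by
  refine kap_cod D hi ?_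
  have := par1_lb (cA := ex i) (cB := 0) (C := ex i + 20) (by omega) x.length
  omega

/-- The reduction to the names. -/
noncomputable def rf (R : Oracle) (v : List Bool) : List Bool :=
  R (true :: true :: v) :: rd R [true, false] v v.length

theorem rf_iff (D : Oracle) (v : List Bool) : rf (G D) v ∈ setA D ↔ v ∈ setK D := by
  rw [rf, rd_base]
  exact (red_iff D v).symm

theorem npu_A (D : Oracle) : NPU (G D) (setA D) := by
  have h := Tr.nop.npu (G D)
  have e : {x | ∃ W, gA (G D) x W = true} = setA D := Set.ext fun x => gA_iff D x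
  rwa [e] at h

theorem pspaceu_A (D : Oracle) : PSPACEU (G D) (setA D) := by
  have h := Tr.nop.pspaceu (G D)
  have e : {x | ∃ W, gA (G D) x W = true} = setA D := Set.ext fun x => gA_iff D x
  rwa [e] at h

theorem npu_of_red {D : Oracle} {u : Prog} {f : Oracle → List Bool → List Bool} (hu : Tr u f)
    {B : Set (List Bool)} (hB : ∀ x, x ∈ B ↔ f (G D) x ∈ setA D) : NPU (G D) B := by
  have h := hu.npu (G D)
  have e : {x | ∃ W, gA (G D) (f (G D) x) W = true} = B :=
    Set.ext fun x => (gA_iff D _).trans (hB x).symm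
  rwa [e] at h

theorem pspaceu_of_red {D : Oracle} {u : Prog} {f : Oracle → List Bool → List Bool} (hu : Tr u f)
    {B : Set (List Bool)} (hB : ∀ x, x ∈ B ↔ f (G D) x ∈ setA D) : PSPACEU (G D) B := by
  have h := hu.pspaceu (G D)
  have e : {x | ∃ W, gA (G D) (f (G D) x) W = true} = B :=
    Set.ext fun x => (gA_iff D _).trans (hB x).symm
  rwa [e] at h

/-- `B` is the set of a machine. -/
def Coded (D : Oracle) (B : Set (List Bool)) : Prop :=
  ∃ i : Ix, ok i ∧ ∀ x, x ∈ B ↔ CO.acc (G D) i x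

theorem coded_of_npu {D : Oracle} {B : Set (List Bool)} (h : NPU (G D) B) : Coded D B := by
  obtain ⟨u, c, h1, h2⟩ := h
  exact ⟨(false, u, c), h1, h2⟩

theorem coded_of_pspaceu {D : Oracle} {B : Set (List Bool)} (h : PSPACEU (G D) B) : Coded D B := by
  obtain ⟨u, c, h1, h2⟩ := h
  exact ⟨(true, u, c), h1, h2⟩

theorem Coded.redK {D : Oracle} {B : Set (List Bool)} (h : Coded D B) :
    ∃ f, FPU (G D) f ∧ ∀ x, x ∈ B ↔ f x ∈ setK D := by
  obtain ⟨i, hi, h⟩ := h
  exact ⟨fun x => inst i x, (tr_inst i).fpu (G D), fun x => (h x).trans (kap_inst D hi x).symm⟩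

theorem Coded.redA' {D : Oracle} {B : Set (List Bool)} (h : Coded D B) :
    ∃ (u : Prog) (f : Oracle → List Bool → List Bool), Tr u f ∧ ∀ x, x ∈ B ↔ f (G D) x ∈ setA D := by
  obtain ⟨i, hi, h⟩ := h
  exact ⟨_, _, (tr_inst i).comp tr_red, fun x => (h x).trans
    ((kap_inst D hi x).symm.trans (rf_iff D (inst i x)).symm)⟩

theorem Coded.redA {D : Oracle} {B : Set (List Bool)} (h : Coded D B) :
    ∃ f, FPU (G D) f ∧ ∀ x, x ∈ B ↔ f x ∈ setA D := by
  obtain ⟨u, f, h1, h2⟩ := h.redA'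
  exact ⟨f (G D), h1.fpu (G D), h2⟩

theorem np_iff_pspace (D : Oracle) (B : Set (List Bool)) : PSPACEU (G D) B ↔ NPU (G D) B := by
  constructor
  · intro h
    obtain ⟨u, f, h1, h2⟩ := (coded_of_pspaceu h).redA'
    exact npu_of_red h1 h2
  · intro h
    obtain ⟨u, f, h1, h2⟩ := (coded_of_npu h).redA'
    exact pspaceu_of_red h1 h2

theorem complete_A (D : Oracle) : CompleteFor (G D) (NPU (G D)) (setA D) :=
  ⟨npu_A D, fun _ hB => (coded_of_npu hB).redA⟩

theorem complete_K (D : Oracle) : CompleteFor (G D) (NPU (G D)) (setK D) :=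
  ⟨npu_of_red tr_red fun v => (rf_iff D v).symm, fun _ hB => (coded_of_npu hB).redK⟩

/-! ### The number of the elements -/

open Classical in
/-- The names of length `m`. -/
noncomputable def names (m : ℕ) : Finset (List Bool) :=
  (strs (nb m)).image fun w => w ++ List.replicate (m - nb m) false

theorem card_names (m : ℕ) : (names m).card ≤ 2 ^ nb m := by
  classical
  exact Finset.card_image_le.trans (card_strs _)

theorem used_mem {D : Oracle} {b : List Bool} (h : Used D b) : b ∈ names b.length := by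
  classical
  obtain ⟨v, hv, h1⟩ := h
  have hl : nb b.length ≤ b.length := min_le_left _ _
  refine Finset.mem_image.2 ⟨b.take (nb b.length), mem_strs (by
    rw [List.length_take]; omega), ?_⟩
  refine List.ext_getElem (by
    rw [List.length_append, List.length_take, List.length_replicate]; omega) fun t h2 h3 => ?_
  rcases Nat.lt_or_ge t (nb b.length) with h4 | h4
  · rw [List.getElem_append_left (by rw [List.length_take]; omega), List.getElem_take]
  · rw [List.getElem_append_right (by rw [List.length_take]; omega), List.getElem_replicate]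
    have h5 : b[t] = (nm D v)[t]'(by rw [length_nm, hv]; exact h3) := by
      simp only [h1]
    rw [h5]
    simp only [nm, List.getElem_map, List.getElem_range, bs, hv]
    rw [decide_eq_false (by omega), Bool.false_and]

open Classical in
/-- A finite set that contains the elements of `setA D` of length at most `n`. -/
noncomputable def bigA (D : Oracle) (n : ℕ) : Finset (List Bool) :=
  (Finset.range n).biUnion fun m => (names m).image fun b => (!kn D b) :: b

theorem mem_bigA {D : Oracle} {n : ℕ} {z : List Bool} (h : z ∈ setA D) (hn : z.length ≤ n) :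
    z ∈ bigA D n := by
  classical
  obtain ⟨c, b, rfl, h1, h2⟩ := h
  rw [List.length_cons] at hn
  refine Finset.mem_biUnion.2 ⟨b.length, Finset.mem_range.2 (by omega), Finset.mem_image.2
    ⟨b, used_mem h1, ?_⟩⟩
  have : (!kn D b) = c := by
    revert h2
    generalize kn D b = a
    cases a <;> cases c <;> simp
  rw [this]

theorem card_bigA (D : Oracle) (n : ℕ) : (bigA D n).card ≤ n * 2 ^ nb n := by
  classical
  refine Finset.card_biUnion_le.trans ((Finset.sum_le_card_nsmul _ _ (2 ^ nb n) fun m hm => ?_).trans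
    (by rw [Finset.card_range, smul_eq_mul]))
  refine Finset.card_image_le.trans ((card_names m).trans (Nat.pow_le_pow_right (by norm_num)
    (nb_mono (Finset.mem_range.1 hm).le)))

theorem ncard_A (D : Oracle) (n : ℕ) : {z | z ∈ setA D ∧ z.length ≤ n}.ncard ≤ n * 2 ^ nb n := by
  have h : {z | z ∈ setA D ∧ z.length ≤ n} ⊆ (bigA D n : Set (List Bool)) :=
    fun z hz => mem_bigA hz.1 hz.2
  refine (Set.ncard_le_ncard h (Finset.finite_toSet _)).trans ?_
  rw [Set.ncard_coe_finset]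
  exact card_bigA D n

theorem no_injection (D : Oracle) {c n : ℕ} (hn : (n ^ c + c) * 2 ^ nb (n ^ c + c) < 2 ^ (n - 2))
    (h2 : 2 ≤ n) {f : List Bool → List Bool} (hf : Function.Injective f)
    (hl : ∀ x : List Bool, (f x).length ≤ x.length ^ c + c) :
    ∃ x, ¬ (x ∈ setK D ↔ f x ∈ setA D) := by
  classical
  by_contra hcon
  push Not at hcon
  have h3 : Fintype.card (Fin (n - 2) → Bool) ≤ (bigA D (n ^ c + c)).card := by
    rw [← Finset.card_univ]
    refine Finset.card_le_card_of_injOn (fun y => f (false :: true :: List.ofFn y))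
      (fun y _ => ?_) ?_
    · have h4 : f (false :: true :: List.ofFn y) ∈ setA D :=
        (hcon _).1 (kap_true D _)
      refine mem_bigA h4 ((hl _).trans ?_)
      simp only [List.length_cons, List.length_ofFn]
      have : n - 2 + 1 + 1 = n := by omega
      rw [this]
    · intro y _ y' _ h
      have h5 := hf h
      simp only [List.cons.injEq, true_and] at h5
      exact List.ofFn_injective h5
  have h4 := card_bigA D (n ^ c + c)
  simp only [Fintype.card_fun, Fintype.card_bool, Fintype.card_fin] at h3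
  omega

end Names

/-! ### The choice of the bound -/

open Classical in
/-- The bound for the names. -/
noncomputable def hb (s : ℕ → ℕ) (n : ℕ) : ℕ :=
  Nat.findGreatest (fun k => k ≤ Nat.log 2 n ^ 2 ∧ ∀ m ≥ n, m * 2 ^ k ≤ s m) n

theorem hb_mono (s : ℕ → ℕ) : Monotone (hb s) := by
  classical
  intro a b h
  refine Nat.findGreatest_mono (fun k hk => ⟨hk.1.trans (Nat.pow_le_pow_left
    (Nat.log_mono_right h) 2), fun m hm => hk.2 m (le_trans h hm)⟩) h

theorem hb_le (s : ℕ → ℕ) (n : ℕ) : hb s n ≤ Nat.log 2 n ^ 2 := by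
  classical
  rcases Nat.eq_zero_or_pos (hb s n) with h | h
  · rw [h]; exact Nat.zero_le _
  · exact (Nat.findGreatest_of_ne_zero (m := hb s n) rfl h.ne').1

theorem hb_spec {s : ℕ → ℕ} {n : ℕ} (h : ∀ m ≥ n, m ≤ s m) : n * 2 ^ hb s n ≤ s n := by
  classical
  have h1 := Nat.findGreatest_spec (P := fun k => k ≤ Nat.log 2 n ^ 2 ∧ ∀ m ≥ n, m * 2 ^ k ≤ s m)
    (m := 0) (n := n) (Nat.zero_le _) ⟨Nat.zero_le _, fun m hm => by
      rw [pow_zero, mul_one]; exact h m hm⟩
  exact h1.2 n le_rfl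

theorem le_hb {s : ℕ → ℕ} {c n : ℕ} (hc : c ≤ Nat.log 2 n) (hn : n ≠ 0)
    (h : ∀ m ≥ n, m ^ (c + 1) ≤ s m) (h2 : c * Nat.log 2 n ≤ n) : c * Nat.log 2 n ≤ hb s n := by
  classical
  refine Nat.le_findGreatest h2 ⟨?_, fun m hm => ?_⟩
  · rw [pow_two]
    exact Nat.mul_le_mul_right _ hc
  · refine le_trans ?_ (h m hm)
    rw [pow_succ', mul_comm c, pow_mul]
    refine Nat.mul_le_mul_left _ (Nat.pow_le_pow_left ((Nat.pow_log_le_self 2 hn).trans hm) c)

/-- The instance for the bound. -/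
@[reducible] noncomputable def hpOf (s : ℕ → ℕ) : Hp := ⟨hb s, hb_mono s⟩

theorem sq_bound {c k : ℕ} (hk : c + 4 ≤ k) : c * (4 * k) ≤ 2 ^ (4 * k) ∧
    (4 * k * c + c) + (4 * k * c + c) ^ 2 + 3 ≤ 2 ^ (4 * k) := by
  have h1 : k * k ≤ 2 ^ k := sq_le_two_pow (by omega)
  have h2 : k ^ 8 ≤ 2 ^ (4 * k) := by
    calc k ^ 8 = (k * k) ^ 4 := by ring
      _ ≤ (2 ^ k) ^ 4 := Nat.pow_le_pow_left h1 4
      _ = 2 ^ (4 * k) := by rw [← pow_mul]; ring_nf
  have h3 : 4 * k * c + c ≤ 5 * (k * k) := by nlinarith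
  have h4 : (4 * k * c + c) ^ 2 ≤ 25 * k ^ 4 := by
    calc (4 * k * c + c) ^ 2 ≤ (5 * (k * k)) ^ 2 := Nat.pow_le_pow_left h3 2
      _ = 25 * k ^ 4 := by ring
  have h5 : 256 ≤ k ^ 4 := by
    calc 256 = 4 ^ 4 := by norm_num
      _ ≤ k ^ 4 := Nat.pow_le_pow_left (by omega) 4
  have h6 : 256 * k ^ 4 ≤ k ^ 8 := by
    calc 256 * k ^ 4 ≤ k ^ 4 * k ^ 4 := Nat.mul_le_mul_right _ h5
      _ = k ^ 8 := by ring
  have h7 : k * k ≤ k ^ 4 := by
    calc k * k = 1 * (k * k) := (one_mul _).symm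
      _ ≤ (k * k) * (k * k) := Nat.mul_le_mul_right _ (by nlinarith)
      _ = k ^ 4 := by ring
  constructor
  · refine le_trans ?_ h2
    nlinarith
  · omega

section

variable {s : ℕ → ℕ} (hs : ∀ c, ∃ N, ∀ n ≥ N, n ^ c ≤ s n)

include hs

theorem fast_hb {u : Prog} {c : ℕ} (hu : Clocked u c) :
    letI := hpOf s
    Fast u := by
  let := hpOf s
  intro N
  obtain ⟨N', hN'⟩ := hs (c + 2)
  obtain ⟨k, hk⟩ : ∃ k, k = N + N' + (c + 1) + 4 := ⟨_, rfl⟩
  obtain ⟨h1, _⟩ := sq_bound (c := c + 1) (k := k) (by omega)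
  obtain ⟨n, hn⟩ : ∃ n, 2 ^ (4 * k) = n := ⟨_, rfl⟩
  have hkn : 4 * k < n := by rw [← hn]; exact Nat.lt_two_pow_self
  have hlog : Nat.log 2 n = 4 * k := by rw [← hn]; exact Nat.log_pow (by norm_num) _
  refine ⟨n, by omega, by omega, n ^ c + c, ?_, fun R x hx => ?_⟩
  · have h2 : (c + 1) * Nat.log 2 n ≤ hb s n := le_hb (by omega) (by omega)
      (fun m hm => hN' m (by omega)) (by rw [hlog, ← hn]; exact h1)
    have h3 : (c + 1) * Nat.log 2 n ≤ nb n := le_min (by rw [hlog, ← hn]; exact h1) h2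
    refine lt_of_lt_of_le ?_ (Nat.pow_le_pow_right (by norm_num) h3)
    rw [mul_comm, pow_mul, hlog, hn, pow_succ]
    have h4 : 1 ≤ n ^ c := Nat.one_le_pow _ _ (by omega)
    have h5 : c + 2 ≤ n := by omega
    calc n ^ c + c < n ^ c * 1 + n ^ c * (c + 1) := by
          have : 1 * (c + 1) ≤ n ^ c * (c + 1) := Nat.mul_le_mul_right _ h4
          omega
      _ = n ^ c * (c + 2) := by ring
      _ ≤ n ^ c * n := Nat.mul_le_mul_left _ h5
  · obtain ⟨s', t, τ, h2, h3⟩ := hu R x
    rw [hx] at h3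
    exact ⟨s', t, τ, h2, h3⟩

omit hs in
theorem length_of_fpu {R : Oracle} {f : List Bool → List Bool} (h : FPU R f) :
    ∃ c, ∀ x : List Bool, (f x).length ≤ x.length ^ c + c := by
  obtain ⟨u, c, h1, h2⟩ := h
  obtain ⟨e, he⟩ : PB fun n => n + (n ^ c + c) := PB.id.add ((PB.id.pow c).add (PB.const c))
  refine ⟨e, fun x => le_trans ?_ (he x.length)⟩
  obtain ⟨s, t, τ, h3, h4⟩ := h2 x
  obtain ⟨s', t', τ', h5, h6⟩ := h1 R x
  obtain ⟨h7, h8⟩ := h3.det h5
  have h9 := (h3.length_le (m := x.length) fun r => by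
    rw [init_eq_s2]; exact length_s2 x r).1 0
  rw [h4] at h9
  simp only
  omega

/-- For each function `s` that is eventually larger than each polynomial, there is an oracle
relative to which `P ≠ NP = PSPACE` and some complete set has at most `s n` elements of length at most
`n`, for almost all `n`. -/
theorem main_SD : ∃ (R : Oracle) (A K : Set (List Bool)),
    (∀ B, PSPACEU R B ↔ NPU R B) ∧
    (∀ f, FPU R f → ∃ x, ¬ (x ∈ K ↔ f x ≠ [])) ∧
    CompleteFor R (NPU R) A ∧ CompleteFor R (NPU R) K ∧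
    (¬ ∃ f, FPU R f ∧ Function.Injective f ∧ ∀ x, x ∈ K ↔ f x ∈ A) ∧
    (∀ (c : ℕ) (f : List Bool → List Bool), Function.Injective f →
      (∀ x : List Bool, (f x).length ≤ x.length ^ c + c) → ∃ x, ¬ (x ∈ K ↔ f x ∈ A)) ∧
    ∃ N, ∀ n ≥ N, {z | z ∈ A ∧ z.length ≤ n}.ncard ≤ s n := by
  let := hpOf s
  obtain ⟨D, hD⟩ := exists_data
  have key : ∀ (c : ℕ) (f : List Bool → List Bool), Function.Injective f →
      (∀ x : List Bool, (f x).length ≤ x.length ^ c + c) → ∃ x, ¬ (x ∈ setK D ↔ f x ∈ setA D) := by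
    intro c f hf hl
    obtain ⟨k, hk⟩ : ∃ k, k = c + 4 := ⟨_, rfl⟩
    obtain ⟨_, h1⟩ := sq_bound (c := c) (k := k) (by omega)
    have hlt : 4 * k < 2 ^ (4 * k) := Nat.lt_two_pow_self
    refine no_injection D (c := c) (n := 2 ^ (4 * k)) ?_ (by omega) hf hl
    have h2 : (2 ^ (4 * k)) ^ c + c ≤ 2 ^ (4 * k * c + c) := by
      rw [pow_add, ← pow_mul]
      have h3 : c < 2 ^ c := Nat.lt_two_pow_self
      have h4 : 1 ≤ 2 ^ (4 * k * c) := Nat.one_le_two_pow
      have h5 : 2 ^ (4 * k * c) * (c + 1) ≤ 2 ^ (4 * k * c) * 2 ^ c := Nat.mul_le_mul_left _ h3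
      have h6 : 1 * c ≤ 2 ^ (4 * k * c) * c := Nat.mul_le_mul_right _ h4
      rw [mul_add] at h5
      omega
    have h3 : nb ((2 ^ (4 * k)) ^ c + c) ≤ (4 * k * c + c) ^ 2 := by
      refine (min_le_right _ _).trans ((hb_le s _).trans (Nat.pow_le_pow_left ?_ 2))
      refine (Nat.log_mono_right h2).trans (Nat.log_pow (by norm_num) _).le
    calc ((2 ^ (4 * k)) ^ c + c) * 2 ^ nb ((2 ^ (4 * k)) ^ c + c)
        ≤ 2 ^ (4 * k * c + c) * 2 ^ ((4 * k * c + c) ^ 2) :=
          Nat.mul_le_mul h2 (Nat.pow_le_pow_right (by norm_num) h3)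
      _ = 2 ^ ((4 * k * c + c) + (4 * k * c + c) ^ 2) := by rw [← pow_add]
      _ < 2 ^ (2 ^ (4 * k) - 2) := Nat.pow_lt_pow_right (by norm_num) (by omega)
  refine ⟨G D, setA D, setK D, np_iff_pspace D, ?_, complete_A D, complete_K D, ?_, key, ?_⟩
  · rintro f ⟨u, c, hu, hf⟩
    obtain ⟨x, z, h1, h2⟩ := hD u (fast_hb hs hu)
    rw [← (hf x).unique h1] at h2
    exact ⟨x, h2⟩
  · rintro ⟨f, h1, h2, h3⟩
    obtain ⟨c, hc⟩ := length_of_fpu h1
    obtain ⟨x, hx⟩ := key c f h2 hc
    exact hx (h3 x)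
  · obtain ⟨N, hN⟩ := hs 1
    refine ⟨N, fun n hn => (ncard_A D n).trans ?_⟩
    refine le_trans (Nat.mul_le_mul_left _ (Nat.pow_le_pow_right (by norm_num) (min_le_right _ _)))
      (hb_spec fun m hm => ?_)
    have := hN m (by omega)
    rwa [pow_one] at this
end

end Pool.Agent.L0h34.SD
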