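import Pool.Agent.L0h34.SD.Ext

/-! # Programs for the reductions to the names -/

set_option autoImplicit false

namespace Pool.Agent.L0h34.SD

open Pool.Agent.L0h34.OM Pool.Agent.L0h34.RO Function
open Pool.Agent.L0h34.CO (tailP go_tailP pt_self)

/-- The input in register `0`, and the witness in register `1`. -/
def s2 (x W : List Bool) : Store :=
  st [x, W, [], [], [], [], [], [], [], [], [], [], [], [], [], [], [], [], [], []]

variable {G : Oracle}

/-- The reduction: the mask bit, and the name. -/
def redP : Prog := .seq (.copy 0 2) (.seq (.copy 0 4) (.seq (.each 4 (rdBody true false) (rdBody true false)) (.seq (.clear 3) (.seq (.clear 2) (.seq (.put 7 true) (.seq (.put 7 true) (.seq (.app 0 7 5) (.seq (.ask 7 6) (.seq (.clear 7) (.seq (.copy 6 0) (.seq (.app 8 0 7) (.seq (.clear 6) (.clear 8)))))))))))))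

theorem go_redP {V W : List Bool} : Go G redP (s2 V W) (16 * V.length * V.length + 100 * V.length + 60)
    (s2 (G (true :: true :: V) :: rd G [true, false] V V.length) W) := by
  obtain ⟨N, hN⟩ : ∃ N, rd G [true, false] V V.length = N := ⟨_, rfl⟩
  have hNl : N.length = V.length := by rw [← hN, length_rd]
  rw [hN]
  unfold s2
  have g1 : Go G (.copy 0 2) (st [V, W, [], [], [], [], [], [], [], [], [], [], [], [], [], [], [], [], [], []])
      ((V : List Bool).length + 1)
      (st [V, W, V, [], [], [], [], [], [], [], [], [], [], [], [], [], [], [], [], []]) := Go.copy (by simp)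
  have g2 : Go G (.copy 0 4) (st [V, W, V, [], [], [], [], [], [], [], [], [], [], [], [], [], [], [], [], []])
      ((V : List Bool).length + 1)
      (st [V, W, V, [], V, [], [], [], [], [], [], [], [], [], [], [], [], [], [], []]) := Go.copy (by simp)
  have g3 : Go G (.each 4 (rdBody true false) (rdBody true false)) (st [V, W, V, [], V, [], [], [], [], [], [], [], [], [], [], [], [], [], [], []])
      (V.length * (8 * (0 + V.length) + 8 * V.length + 60) + 1)
      (st [V, W, V, ones (0 + V.length), [], [], [], [], [] ++ (List.range V.length).map (fun t => G (adr [true, false] (0 + t) V)), [], [], [], [], [], [], [], [], [], [], []]) := go_rd true false V 0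
  have e1 : [] ++ (List.range V.length).map (fun t => G (adr [true, false] (0 + t) V)) = N := by
    rw [← hN, rd]; simp
  rw [e1, Nat.zero_add] at g3
  have g4 : Go G (.clear 3) (st [V, W, V, ones V.length, [], [], [], [], N, [], [], [], [], [], [], [], [], [], [], []])
      (3 * (ones V.length : List Bool).length + 1)
      (st [V, W, V, [], [], [], [], [], N, [], [], [], [], [], [], [], [], [], [], []]) := Go.clear (by simp)
  have g5 : Go G (.clear 2) (st [V, W, V, [], [], [], [], [], N, [], [], [], [], [], [], [], [], [], [], []])
      (3 * (V : List Bool).length + 1)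
      (st [V, W, [], [], [], [], [], [], N, [], [], [], [], [], [], [], [], [], [], []]) := Go.clear (by simp)
  have g6 : Go G (.put 7 true) (st [V, W, [], [], [], [], [], [], N, [], [], [], [], [], [], [], [], [], [], []])
      (1)
      (st [V, W, [], [], [], [], [], [true], N, [], [], [], [], [], [], [], [], [], [], []]) := Go.put true (by simp)
  have g7 : Go G (.put 7 true) (st [V, W, [], [], [], [], [], [true], N, [], [], [], [], [], [], [], [], [], [], []])
      (1)
      (st [V, W, [], [], [], [], [], [true, true], N, [], [], [], [], [], [], [], [], [], [], []]) := Go.put true (by simp)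
  have g8 : Go G (.app 0 7 5) (st [V, W, [], [], [], [], [], [true, true], N, [], [], [], [], [], [], [], [], [], [], []])
      (4 * (V : List Bool).length + 2)
      (st [V, W, [], [], [], [], [], [true, true] ++ V, N, [], [], [], [], [], [], [], [], [], [], []]) := Go.app (by simp) (by simp) (by simp)
  have g9 : Go G (.ask 7 6) (st [V, W, [], [], [], [], [], true :: true :: V, N, [], [], [], [], [], [], [], [], [], [], []])
      ((true :: true :: V : List Bool).length + 1)
      (st [V, W, [], [], [], [], [G (true :: true :: V)], true :: true :: V, N, [], [], [], [], [], [], [], [], [], [], []]) := Go.ask (by simp)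
  have g10 : Go G (.clear 7) (st [V, W, [], [], [], [], [G (true :: true :: V)], true :: true :: V, N, [], [], [], [], [], [], [], [], [], [], []])
      (3 * (true :: true :: V : List Bool).length + 1)
      (st [V, W, [], [], [], [], [G (true :: true :: V)], [], N, [], [], [], [], [], [], [], [], [], [], []]) := Go.clear (by simp)
  have g11 : Go G (.copy 6 0) (st [V, W, [], [], [], [], [G (true :: true :: V)], [], N, [], [], [], [], [], [], [], [], [], [], []])
      (([G (true :: true :: V)] : List Bool).length + 1)
      (st [[G (true :: true :: V)], W, [], [], [], [], [G (true :: true :: V)], [], N, [], [], [], [], [], [], [], [], [], [], []]) := Go.copy (by simp)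
  have g12 : Go G (.app 8 0 7) (st [[G (true :: true :: V)], W, [], [], [], [], [G (true :: true :: V)], [], N, [], [], [], [], [], [], [], [], [], [], []])
      (4 * (N : List Bool).length + 2)
      (st [[G (true :: true :: V)] ++ N, W, [], [], [], [], [G (true :: true :: V)], [], N, [], [], [], [], [], [], [], [], [], [], []]) := Go.app (by simp) (by simp) (by simp)
  have g13 : Go G (.clear 6) (st [G (true :: true :: V) :: N, W, [], [], [], [], [G (true :: true :: V)], [], N, [], [], [], [], [], [], [], [], [], [], []])
      (3 * ([G (true :: true :: V)] : List Bool).length + 1)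
      (st [G (true :: true :: V) :: N, W, [], [], [], [], [], [], N, [], [], [], [], [], [], [], [], [], [], []]) := Go.clear (by simp)
  have g14 : Go G (.clear 8) (st [G (true :: true :: V) :: N, W, [], [], [], [], [], [], N, [], [], [], [], [], [], [], [], [], [], []])
      (3 * (N : List Bool).length + 1)
      (st [G (true :: true :: V) :: N, W, [], [], [], [], [], [], [], [], [], [], [], [], [], [], [], [], [], []]) := Go.clear (by simp)
  refine (g1.seq (g2.seq (g3.seq (g4.seq (g5.seq (g6.seq (g7.seq (g8.seq (g9.seq (g10.seq (g11.seq (g12.seq (g13.seq g14))))))))))))).mono ?_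
  clear g14 g13 g12 g11 g10 g9 g8 g7 g6 g5 g4 g3 g2 g1
  simp only [List.length_cons, List.length_nil, ones, List.length_replicate, hNl]
  ring_nf
  omega

/-- The predicate of the verifier. -/
def gA (G : Oracle) (z W : List Bool) : Bool :=
  match z with
  | [] => false
  | c :: b => G (false :: (!c) :: (b ++ pt b.length W))

/-- The verifier. -/
def verA : Prog := .take 0 .nop (.seq (.put 5 false) (.seq (.put 5 true) tailP))
  (.seq (.put 5 false) (.seq (.put 5 false) tailP))

theorem go_verA (z W : List Bool) : ∃ τ : Store, τ 0 = cc (gA G z W) ∧
    Go G verA (s2 z W) (20 * z.length + 60) τ := by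
  unfold s2
  match z with
  | [] => exact ⟨_, rfl, (Go.take_nil (T := 1) rfl Go.nop).mono (by omega)⟩
  | false :: b =>
    have g1 : Go G (.put 5 false) (st [b, W, [], [], [], [], [], [], [], [], [], [], [], [], [], [], [], [], [], []])
        (1)
        (st [b, W, [], [], [], [false], [], [], [], [], [], [], [], [], [], [], [], [], [], []]) := Go.put false (by simp)
    have g2 : Go G (.put 5 true) (st [b, W, [], [], [], [false], [], [], [], [], [], [], [], [], [], [], [], [], [], []])
        (1)
        (st [b, W, [], [], [], [false, true], [], [], [], [], [], [], [], [], [], [], [], [], [], []]) := Go.put true (by simp)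
    refine ⟨_, ?_, (Go.take_false (T := 1 + (1 + (20 * b.length + 2 * [false, true].length + 20)))
      (by simp) rfl (g1.seq (g2.seq (go_tailP (V := b) (W := W) (pre := [false, true]))))).mono (by
        simp only [List.length_cons, List.length_nil]; omega)⟩
    simp [st, gA]
  | true :: b =>
    have g1 : Go G (.put 5 false) (st [b, W, [], [], [], [], [], [], [], [], [], [], [], [], [], [], [], [], [], []])
        (1)
        (st [b, W, [], [], [], [false], [], [], [], [], [], [], [], [], [], [], [], [], [], []]) := Go.put false (by simp)
    have g2 : Go G (.put 5 false) (st [b, W, [], [], [], [false], [], [], [], [], [], [], [], [], [], [], [], [], [], []])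
        (1)
        (st [b, W, [], [], [], [false, false], [], [], [], [], [], [], [], [], [], [], [], [], [], []]) := Go.put false (by simp)
    refine ⟨_, ?_, (Go.take_true (T := 1 + (1 + (20 * b.length + 2 * [false, false].length + 20)))
      (by simp) rfl (g1.seq (g2.seq (go_tailP (V := b) (W := W) (pre := [false, false]))))).mono (by
        simp only [List.length_cons, List.length_nil]; omega)⟩
    simp [st, gA]

/-! ### The search -/

/-- One round of the search. -/
def rndA : Prog := .seq (.copy 10 5) (.seq (.app 0 5 7) (.seq (.app 2 5 7) (.seq (.ask 5 6) (.seq (.clear 5) (.seq (.take 6 .nop .nop (.seq (.clear 17) (.put 17 true))) incP)))))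

theorem go_rndA (κ o : Bool) {b s : List Bool} (hs : s.length = b.length) :
    Go G rndA (st [b, [], s, [], [], [], [], [], [], [], [false, κ], [], [], [], [true], [], [], cc o, [], []])
      (40 * b.length + 60)
      (st [b, [], (inc true s).2, [], [], [], [], [], [], [], [false, κ], [], [], [], if (inc true s).1 then [] else [true], [], [], cc (o || G (false :: κ :: (b ++ s))), [], []]) := by
  have e1 : [false, κ] ++ b ++ s = false :: κ :: (b ++ s) := by simp
  have g1 : Go G (.copy 10 5) (st [b, [], s, [], [], [], [], [], [], [], [false, κ], [], [], [], [true], [], [], cc o, [], []])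
      (([false, κ] : List Bool).length + 1)
      (st [b, [], s, [], [], [false, κ], [], [], [], [], [false, κ], [], [], [], [true], [], [], cc o, [], []]) := Go.copy (by simp)
  have g2 : Go G (.app 0 5 7) (st [b, [], s, [], [], [false, κ], [], [], [], [], [false, κ], [], [], [], [true], [], [], cc o, [], []])
      (4 * (b : List Bool).length + 2)
      (st [b, [], s, [], [], [false, κ] ++ b, [], [], [], [], [false, κ], [], [], [], [true], [], [], cc o, [], []]) := Go.app (by simp) (by simp) (by simp)
  have g3 : Go G (.app 2 5 7) (st [b, [], s, [], [], [false, κ] ++ b, [], [], [], [], [false, κ], [], [], [], [true], [], [], cc o, [], []])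
      (4 * (s : List Bool).length + 2)
      (st [b, [], s, [], [], [false, κ] ++ b ++ s, [], [], [], [], [false, κ], [], [], [], [true], [], [], cc o, [], []]) := Go.app (by simp) (by simp) (by simp)
  rw [e1] at g3
  have g4 : Go G (.ask 5 6) (st [b, [], s, [], [], false :: κ :: (b ++ s), [], [], [], [], [false, κ], [], [], [], [true], [], [], cc o, [], []])
      ((false :: κ :: (b ++ s) : List Bool).length + 1)
      (st [b, [], s, [], [], false :: κ :: (b ++ s), [G (false :: κ :: (b ++ s))], [], [], [], [false, κ], [], [], [], [true], [], [], cc o, [], []]) := Go.ask (by simp)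
  have g5 : Go G (.clear 5) (st [b, [], s, [], [], false :: κ :: (b ++ s), [G (false :: κ :: (b ++ s))], [], [], [], [false, κ], [], [], [], [true], [], [], cc o, [], []])
      (3 * (false :: κ :: (b ++ s) : List Bool).length + 1)
      (st [b, [], s, [], [], [], [G (false :: κ :: (b ++ s))], [], [], [], [false, κ], [], [], [], [true], [], [], cc o, [], []]) := Go.clear (by simp)
  have g6 : Go G (.take 6 .nop .nop (.seq (.clear 17) (.put 17 true))) (st [b, [], s, [], [], [], [G (false :: κ :: (b ++ s))], [], [], [], [false, κ], [], [], [], [true], [], [], cc o, [], []])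
      (7)
      (st [b, [], s, [], [], [], [], [], [], [], [false, κ], [], [], [], [true], [], [], cc (o || G (false :: κ :: (b ++ s))), [], []]) := by
    cases G (false :: κ :: (b ++ s))
    · rw [Bool.or_false]
      exact (Go.take_false (by simp) rfl Go.nop).mono (by omega)
    · rw [Bool.or_true]
      have ho := cc_length o
      exact (Go.take_true (T := 3 * (cc o).length + 1 + 1) (by simp) rfl
        ((Go.clear (by simp)).seq (Go.put true (by simp)))).mono (by omega)
  have g7 : Go G incP (st [b, [], s, [], [], [], [], [], [], [], [false, κ], [], [], [], [true], [], [], cc (o || G (false :: κ :: (b ++ s))), [], []])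
      (9 * s.length + 10)
      (st [b, [], (inc true s).2, [], [], [], [], [], [], [], [false, κ], [], [], [], if (inc true s).1 then [] else [true], [], [], cc (o || G (false :: κ :: (b ++ s))), [], []]) := go_incP s
  refine (g1.seq (g2.seq (g3.seq (g4.seq (g5.seq (g6.seq g7)))))).mono ?_
  clear g7 g6 g5 g4 g3 g2 g1
  simp only [List.length_cons, List.length_nil, List.length_append, hs]
  omega

theorem reach_loopA (κ : Bool) (b : List Bool) :
    ∃ T, Reach G (50 * b.length + 70) (.loop 14 rndA)
      (st [b, [], List.replicate b.length false, [], [], [], [], [], [], [], [false, κ], [], [], [], [true], [], [], [], [], []])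
      T
      (st [b, [], zs b.length (2 ^ b.length), [], [], [], [], [], [], [], [false, κ], [], [], [], [], [], [], cc (orUpto (fun j => G (false :: κ :: (b ++ zs b.length j))) (2 ^ b.length)), [], []]) := by
  obtain ⟨k, hk⟩ : ∃ k, b.length = k := ⟨_, rfl⟩
  rw [hk]
  have hpos : ¬ (2 ^ k ≤ 0) := by have := Nat.pos_of_ne_zero (pow_ne_zero k (two_ne_zero)); omega
  have hpos' : ¬ (2 ^ k = 0) := by omega
  have h := Reach.loop_iter (G := G) (s := 50 * k + 70) (r := 14) (u := rndA)
    (fun i => st [b, [], zs k i, [], [], [], [], [], [], [], [false, κ], [], [], [], if 2 ^ k ≤ i then [] else [true], [], [], cc (orUpto (fun j => G (false :: κ :: (b ++ zs k j))) i), [], []])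
    (2 ^ k) (40 * k + 60) (by
      intro i hi
      have hni : ¬ (2 ^ k ≤ i) := by omega
      refine ⟨by simp [st, hni], ?_⟩
      have hb := go_rndA (G := G) κ (orUpto (fun j => G (false :: κ :: (b ++ zs k j))) i)
        (b := b) (s := zs k i) (by rw [length_zs, hk])
      rw [inc_zs k i hi, hk] at hb
      simp only [hni, if_false, decide_eq_true_eq] at hb ⊢
      refine (Go.reach (m := k + 2) hb ?_).mono_space (by omega)
      intro x hx
      simp only [List.mem_cons, List.not_mem_nil, or_false] at hx
      have hz := length_zs k i
      rcases hx with rfl | rfl | rfl | rfl | rfl | rfl | rfl | rfl | rfl | rfl | rfl | rfl | rfl |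
        rfl | rfl | rfl | rfl | rfl | rfl | rfl <;>
        first
        | (simp only [List.length_nil]; omega)
        | omega
        | exact (cc_length _).trans (by omega)
        | (simp only [List.length_cons, List.length_nil]; omega)) (by simp [st])
  simp only [hpos, if_false, le_refl, if_true, orUpto, zs_zero] at h
  exact ⟨_, h⟩

/-- The search for a witness for `κ`. -/
def srcB (κ : Bool) : Prog := .seq (.seq (.put 10 false) (.seq (.put 10 κ) (.seq (.copy 0 4) (.seq (.each 4 (.put 2 false) (.put 2 false)) (.put 14 true)))))
  (.seq (.loop 14 rndA) (.seq (.clear 0) (.copy 17 0)))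

theorem go_srcB (κ : Bool) (b : List Bool) : ∃ T τ, Reach G (50 * b.length + 70) (srcB κ)
    (st [b, [], [], [], [], [], [], [], [], [], [], [], [], [], [], [], [], [], [], []]) T τ ∧
    (τ 0 ≠ [] ↔ ∃ s : List Bool, s.length = b.length ∧ G (false :: κ :: (b ++ s)) = true) := by
  have g1 : Go G (.put 10 false) (st [b, [], [], [], [], [], [], [], [], [], [], [], [], [], [], [], [], [], [], []])
      (1)
      (st [b, [], [], [], [], [], [], [], [], [], [false], [], [], [], [], [], [], [], [], []]) := Go.put false (by simp)
  have g2 : Go G (.put 10 κ) (st [b, [], [], [], [], [], [], [], [], [], [false], [], [], [], [], [], [], [], [], []])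
      (1)
      (st [b, [], [], [], [], [], [], [], [], [], [false, κ], [], [], [], [], [], [], [], [], []]) := Go.put κ (by simp)
  have g3 : Go G (.copy 0 4) (st [b, [], [], [], [], [], [], [], [], [], [false, κ], [], [], [], [], [], [], [], [], []])
      ((b : List Bool).length + 1)
      (st [b, [], [], [], b, [], [], [], [], [], [false, κ], [], [], [], [], [], [], [], [], []]) := Go.copy (by simp)
  have g4 : Go G (.each 4 (.put 2 false) (.put 2 false)) (st [b, [], [], [], b, [], [], [], [], [], [false, κ], [], [], [], [], [], [], [], [], []])
      (3 * b.length + 1)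
      (st [b, [], [] ++ List.replicate b.length false, [], [], [], [], [], [], [], [false, κ], [], [], [], [], [], [], [], [], []]) := go_fill b
  rw [List.nil_append] at g4
  have g5 : Go G (.put 14 true) (st [b, [], List.replicate b.length false, [], [], [], [], [], [], [], [false, κ], [], [], [], [], [], [], [], [], []])
      (1)
      (st [b, [], List.replicate b.length false, [], [], [], [], [], [], [], [false, κ], [], [], [], [true], [], [], [], [], []]) := Go.put true (by simp)
  have hpre := (Go.reach (m := b.length) (g1.seq (g2.seq (g3.seq (g4.seq g5)))) (by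
    intro x hx
    simp only [List.mem_cons, List.not_mem_nil, or_false] at hx
    rcases hx with rfl | rfl | rfl | rfl | rfl | rfl | rfl | rfl | rfl | rfl | rfl | rfl | rfl |
        rfl | rfl | rfl | rfl | rfl | rfl | rfl <;>
      first
      | exact le_rfl
      | simp)).mono_space (s' := 50 * b.length + 70) (by
    omega)
  obtain ⟨T, hl⟩ := reach_loopA (G := G) κ b
  obtain ⟨o, ho⟩ : ∃ o, orUpto (fun j => G (false :: κ :: (b ++ zs b.length j))) (2 ^ b.length) = o :=
    ⟨_, rfl⟩
  rw [ho] at hl
  have k1 : Go G (.clear 0) (st [b, [], zs b.length (2 ^ b.length), [], [], [], [], [], [], [], [false, κ], [], [], [], [], [], [], cc o, [], []])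
      (3 * (b : List Bool).length + 1)
      (st [[], [], zs b.length (2 ^ b.length), [], [], [], [], [], [], [], [false, κ], [], [], [], [], [], [], cc o, [], []]) := Go.clear (by simp)
  have k2 : Go G (.copy 17 0) (st [[], [], zs b.length (2 ^ b.length), [], [], [], [], [], [], [], [false, κ], [], [], [], [], [], [], cc o, [], []])
      ((cc o : List Bool).length + 1)
      (st [cc o, [], zs b.length (2 ^ b.length), [], [], [], [], [], [], [], [false, κ], [], [], [], [], [], [], cc o, [], []]) := Go.copy (by simp)
  have hpost := (Go.reach (m := b.length + 2) (k1.seq k2) (by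
    intro x hx
    simp only [List.mem_cons, List.not_mem_nil, or_false] at hx
    have hz := length_zs b.length (2 ^ b.length)
    rcases hx with rfl | rfl | rfl | rfl | rfl | rfl | rfl | rfl | rfl | rfl | rfl | rfl | rfl |
        rfl | rfl | rfl | rfl | rfl | rfl | rfl <;>
      first
      | (simp only [List.length_nil]; omega)
      | omega
      | exact (cc_length _).trans (by omega)
      | (simp only [List.length_cons, List.length_nil]; omega))).mono_space
    (s' := 50 * b.length + 70) (by
    have := cc_length o
    omega)
  refine ⟨_, _, hpre.seq (hl.seq hpost), ?_⟩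
  have hcand : ∀ s : List Bool, s.length = b.length → ∃ i < 2 ^ b.length, zs b.length i = s := by
    intro s hs
    have hsurj := Finset.surj_on_of_inj_on_of_card_le (s := Finset.range (2 ^ b.length))
      (t := strs b.length) (fun i _ => zs b.length i) (fun i _ => mem_strs (length_zs b.length i))
      (fun i j hi hj h => zs_inj (Finset.mem_range.1 hi) (Finset.mem_range.1 hj) h)
      (by rw [Finset.card_range]; exact card_strs _) s (mem_strs hs)
    obtain ⟨i, hi, h⟩ := hsurj
    exact ⟨i, Finset.mem_range.1 hi, h.symm⟩
  have e1 : (st [cc o, [], zs b.length (2 ^ b.length), [], [], [], [], [], [], [], [false, κ], [], [], [], [], [], [], cc o, [], []]) 0 = cc o := rfl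
  rw [e1]
  have e2 : cc o ≠ [] ↔ o = true := by cases o <;> simp [cc]
  rw [e2, ← ho, orUpto_iff]
  constructor
  · rintro ⟨i, _, h⟩
    exact ⟨zs b.length i, length_zs _ _, h⟩
  · rintro ⟨s, hs, h⟩
    obtain ⟨i, hi, rfl⟩ := hcand s hs
    exact ⟨i, hi, h⟩

/-- The search program. -/
def srcA : Prog := .take 0 .nop (srcB true) (srcB false)

theorem go_srcA (z : List Bool) : ∃ T τ, Reach G (50 * z.length + 70) srcA (init z) T τ ∧
    (τ 0 ≠ [] ↔ ∃ W, gA G z W = true) := by
  rw [init_eq20]
  match z with
  | [] =>
    refine ⟨_, _, Reach.take_nil rfl Reach.nop, ?_⟩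
    simp [st, gA]
  | c :: b =>
    have key : ∀ κ : Bool, (∃ s : List Bool, s.length = b.length ∧ G (false :: κ :: (b ++ s)) = true) ↔
        ∃ W, G (false :: κ :: (b ++ pt b.length W)) = true := by
      intro κ
      constructor
      · rintro ⟨s, hs, h⟩
        refine ⟨s, ?_⟩
        rw [← hs, pt_self]
        exact h
      · rintro ⟨W, h⟩
        exact ⟨_, length_pt _ _, h⟩
    cases c
    · obtain ⟨T, τ, h1, h2⟩ := go_srcB (G := G) true b
      refine ⟨_, τ, Reach.take_false' (by simp) rfl (h1.mono_space (by
        simp only [List.length_cons]; omega)), ?_⟩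
      rw [h2, key]
      simp [gA]
    · obtain ⟨T, τ, h1, h2⟩ := go_srcB (G := G) false b
      refine ⟨_, τ, Reach.take_true' (by simp) rfl (h1.mono_space (by
        simp only [List.length_cons]; omega)), ?_⟩
      rw [h2, key]
      simp [gA]

end Pool.Agent.L0h34.SD
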